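import Pool.Agent.Lib.MP_a57f33_nt.PN.V.Lin

/-!
# Parity project (MP_a57f33_nt): the Hamiltonian of `ψ ∈ dm0` and its divergence
-/

set_option autoImplicit false

namespace Pool.Agent.MP_a57f33_nt.PV

open Pool.Agent.MP_a57f33_nt
open Pent (der der_mul der_iota der_one der_unique)

/-- the Hamiltonian (cyclic functional on words) of `ψ` -/
noncomputable def hf (ψ : QX) : List Bool → ℚ
  | [] => 0
  | false :: w => coeff ψ w - coeff (shiftX ψ) w
  | true :: w => coeff (shiftX ψ) w

noncomputable def HH (ψ : QX) : QX →ₗ[ℚ] ℚ := lin (hf ψ)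

theorem HH_one (ψ : QX) : HH ψ 1 = 0 := by
  unfold HH; rw [lin_one]; rfl

theorem HH_0 (ψ W : QX) :
    HH ψ (X0 * W) = lin (coeff ψ) W - lin (coeff (shiftX ψ)) W := by
  unfold HH
  rw [lin_cons, ← lin_sub_fun]; rfl

theorem HH_1 (ψ W : QX) : HH ψ (X1 * W) = lin (coeff (shiftX ψ)) W := by
  unfold HH
  rw [lin_cons]; rfl

theorem good_of_dm0 {ψ : QX} (h : ψ ∈ dm0) : Good ψ := ⟨h.1, h.2.1, h.2.2.1⟩

theorem good_hom (f : QX →ₐ[ℚ] QX) (h1 : ∀ b, f (FreeAlgebra.ι ℚ b) ∈ LieX)
    (h2 : ∀ b, coeff (f (FreeAlgebra.ι ℚ b)) [] = 0) {ψ : QX} (h : Good ψ) : Good (f ψ) :=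
  ⟨hom_lie f h1 h.1, lin_hom f h2 (lie_ins h.1).1 h.2.1 h.2.2 false,
    lin_hom f h2 (lie_ins h.1).1 h.2.1 h.2.2 true⟩

theorem good_shift {ψ : QX} (h : Good ψ) : Good (shiftX ψ) :=
  ⟨shift_mem h.1, lin_hom _ shift_nil (lie_ins h.1).1 h.2.1 h.2.2 false,
    lin_hom _ shift_nil (lie_ins h.1).1 h.2.1 h.2.2 true⟩

theorem good_tt {ψ : QX} (h : Good ψ) : Good (ttX ψ) :=
  ⟨tt_mem h.1, lin_hom _ tt_nil (lie_ins h.1).1 h.2.1 h.2.2 false,
    lin_hom _ tt_nil (lie_ins h.1).1 h.2.1 h.2.2 true⟩

theorem good_rh {ψ : QX} (h : Good ψ) : Good (rhX ψ) :=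
  ⟨rh_mem h.1, lin_hom _ rh_nil (lie_ins h.1).1 h.2.1 h.2.2 false,
    lin_hom _ rh_nil (lie_ins h.1).1 h.2.1 h.2.2 true⟩

theorem Good.sub {ψ φ : QX} (h : Good ψ) (h' : Good φ) : Good (ψ - φ) :=
  ⟨sub_mem h.1 h'.1, by rw [coeff_sub, h.2.1, h'.2.1, sub_zero],
    by rw [coeff_sub, h.2.2, h'.2.2, sub_zero]⟩

theorem Good.add {ψ φ : QX} (h : Good ψ) (h' : Good φ) : Good (ψ + φ) :=
  ⟨add_mem h.1 h'.1, by rw [coeff_add, h.2.1, h'.2.1, add_zero],
    by rw [coeff_add, h.2.2, h'.2.2, add_zero]⟩

theorem Good.neg {ψ : QX} (h : Good ψ) : Good (-ψ) :=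
  ⟨neg_mem h.1, by rw [← zero_sub, coeff_sub, coeff_zero, h.2.1, sub_zero],
    by rw [← zero_sub, coeff_sub, coeff_zero, h.2.2, sub_zero]⟩

/-- the two components of a functional at the letters -/
structure Comp (F : QX →ₗ[ℚ] ℚ) : Prop where
  one : F 1 = 0
  cyc : ∀ (b : Bool) (W : QX), F (FreeAlgebra.ι ℚ b * W) = F (W * FreeAlgebra.ι ℚ b)
  good : ∀ b : Bool, ∃ φ : QX, Good φ ∧ ∀ W, F (FreeAlgebra.ι ℚ b * W) = lin (coeff φ) W

theorem Comp.tr {F : QX →ₗ[ℚ] ℚ} (h : Comp F) (U V : QX) : F (U * V) = F (V * U) := by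
  have : ∀ (u : List Bool) (V : QX), F (word u * V) = F (V * word u) := by
    intro u
    induction u with
    | nil => intro V; simp
    | cons b u ih =>
      intro V
      rw [word_cons, mul_assoc, h.cyc, mul_assoc, ih, mul_assoc]
  have h2 : F.comp (LinearMap.mulRight ℚ V) = F.comp (LinearMap.mulLeft ℚ V) := by
    apply linear_ext
    intro w
    exact this w V
  exact LinearMap.congr_fun h2 U

theorem Comp.Ib {F : QX →ₗ[ℚ] ℚ} (h : Comp F) (x : Bool) (W : QX) : F (Ib x W) = 0 := by
  have : F.comp (PV.Ib x) = 0 := by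
    apply linear_ext
    intro w
    cases w with
    | nil =>
      change F (PV.Ib x 1) = 0
      unfold PV.Ib
      rw [der_one, map_zero]
    | cons b w =>
      change F (PV.Ib x (word (b :: w))) = 0
      obtain ⟨φ, hφ, hF⟩ := h.good b
      have e : PV.Ib x (word (b :: w)) = FreeAlgebra.ι ℚ x * (FreeAlgebra.ι ℚ b * word w) +
          FreeAlgebra.ι ℚ b * PV.Ib x (word w) := by
        rw [word_cons]
        conv_lhs => rw [PV.Ib, der_mul, der_iota, ← PV.Ib]
        rw [mul_assoc]
      rw [e, map_add, h.cyc x, mul_assoc, hF, hF, add_comm, ← map_add]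
      exact hφ.before x (word w)
  exact LinearMap.congr_fun this W

theorem Comp.Ja {F : QX →ₗ[ℚ] ℚ} (h : Comp F) (x : Bool) (W : QX) : F (Ja x W) = 0 := by
  have : F.comp (PV.Ja x) = 0 := by
    apply linear_ext
    intro w
    cases w with
    | nil =>
      change F (PV.Ja x 1) = 0
      unfold PV.Ja
      rw [der_one, map_zero]
    | cons b w =>
      change F (PV.Ja x (word (b :: w))) = 0
      obtain ⟨φ, hφ, hF⟩ := h.good b
      have e : PV.Ja x (word (b :: w)) = FreeAlgebra.ι ℚ b * (FreeAlgebra.ι ℚ x * word w +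
          PV.Ja x (word w)) := by
        rw [word_cons]
        conv_lhs => rw [PV.Ja, der_mul, der_iota, ← PV.Ja]
        noncomm_ring
      rw [e, hF]
      exact hφ.after x (word w)
  exact LinearMap.congr_fun this W

theorem coeff_sub_fun (ψ φ : QX) : coeff (ψ - φ) = fun t => coeff ψ t - coeff φ t := by
  funext t; exact coeff_sub ψ φ t

theorem coeff_add_fun (ψ φ : QX) : coeff (ψ + φ) = fun t => coeff ψ t + coeff φ t := by
  funext t; exact coeff_add ψ φ t

theorem coeff_neg_fun (ψ : QX) : coeff (-ψ) = fun t => (-1) * coeff ψ t := by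
  funext t
  rw [← zero_sub, coeff_sub, coeff_zero]; ring

theorem HH_comp {ψ : QX} (h : ψ ∈ dm0) : Comp (HH ψ) where
  one := HH_one ψ
  cyc := by
    intro b W
    have tt := two_term h
    have key : ∀ w : List Bool, hf ψ (b :: w) = hf ψ (w ++ [b]) := by
      intro w
      cases w with
      | nil => rfl
      | cons c w =>
        have h1 := congrArg (fun u => coeff u (c :: (w ++ [b]))) tt
        simp only [coeff_zero] at h1
        have e : (X0 * ψ - ψ * X0) + ((X1 - X0) * shiftX ψ - shiftX ψ * (X1 - X0)) =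
            X0 * (ψ - shiftX ψ) - (ψ - shiftX ψ) * X0 + (X1 * shiftX ψ - shiftX ψ * X1) := by
          noncomm_ring
        rw [e, coeff_add, coeff_sub, coeff_sub] at h1
        rw [← List.cons_append] at h1
        rw [coeff_mul_iota_snoc, coeff_mul_iota_snoc, List.cons_append, coeff_iota_mul_cons,
          coeff_iota_mul_cons, coeff_sub, coeff_sub] at h1
        cases b <;> cases c <;> simp [hf] at h1 ⊢ <;> linarith
    have : (HH ψ).comp (LinearMap.mulLeft ℚ (FreeAlgebra.ι ℚ b)) =
        (HH ψ).comp (LinearMap.mulRight ℚ (FreeAlgebra.ι ℚ b)) := by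
      apply linear_ext
      intro w
      change HH ψ (FreeAlgebra.ι ℚ b * word w) = HH ψ (word w * FreeAlgebra.ι ℚ b)
      have e : word w * FreeAlgebra.ι ℚ b = word (w ++ [b]) := by
        rw [word_append]; simp
      rw [← word_cons, e]
      unfold HH
      rw [lin_word, lin_word, key]
    exact LinearMap.congr_fun this W
  good := by
    intro b
    cases b
    · refine ⟨ψ - shiftX ψ, (good_of_dm0 h).sub (good_shift (good_of_dm0 h)), fun W => ?_⟩
      rw [coeff_sub_fun, lin_sub_fun]
      exact HH_0 ψ W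
    · refine ⟨shiftX ψ, good_shift (good_of_dm0 h), fun W => HH_1 ψ W⟩

theorem shift_adj (φ W : QX) : lin (coeff φ) (sT W) = lin (coeff (shiftX φ)) W := adj_s φ W

/-- `H` is invariant under the exchange of `a` and `c` -/
theorem HH_s (ψ W : QX) : HH ψ (sT W) = HH ψ W := by
  have : (HH ψ).comp sT.toLinearMap = HH ψ := by
    apply linear_ext
    intro w
    change HH ψ (sT (word w)) = HH ψ (word w)
    cases w with
    | nil => rw [word_nil, map_one]
    | cons b w =>
      rw [word_cons, map_mul]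
      cases b
      · change HH ψ (sT X0 * sT (word w)) = HH ψ (X0 * word w)
        rw [sT_X0, neg_mul, map_neg, HH_0, HH_0, adj_s, adj_s, shiftX_shiftX]; ring
      · change HH ψ (sT X1 * sT (word w)) = HH ψ (X1 * word w)
        rw [sT_X1, add_mul, map_add, HH_0, HH_1, HH_1, adj_s, adj_s, shiftX_shiftX]; ring
  exact LinearMap.congr_fun this W

/-! ### Conjugation of derivations -/

/-- `F ∘ d = d' ∘ F` for derivations, if it holds on letters -/
theorem conj_der (F : QX →ₐ[ℚ] QX) (u u' : Bool → QX)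
    (h : ∀ b, F (u b) = der u' (F (FreeAlgebra.ι ℚ b))) (W : QX) :
    F (der u W) = der u' (F W) := by
  induction W using FreeAlgebra.induction with
  | grade0 r =>
    rw [Algebra.algebraMap_eq_smul_one, map_smul, der_one, smul_zero, map_zero, map_smul,
      map_one, map_smul, der_one, smul_zero]
  | grade1 b => rw [der_iota, h]
  | mul a b ha hb => rw [der_mul, map_add, map_mul, map_mul, map_mul, der_mul, ha, hb]
  | add a b ha hb => rw [map_add, map_add, map_add, map_add, ha, hb]

/-- sums of derivations -/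
theorem der_add_fun (u v : Bool → QX) (W : QX) : der (fun b => u b + v b) W = der u W + der v W := by
  have : der u + der v = der (fun b => u b + v b) := by
    apply der_unique
    · intro f g
      simp only [LinearMap.add_apply, der_mul]
      noncomm_ring
    · intro i
      simp only [LinearMap.add_apply, der_iota]
  rw [← this]; rfl

theorem der_neg_fun (u : Bool → QX) (W : QX) : der (fun b => - u b) W = - der u W := by
  have : - der u = der (fun b => - u b) := by
    apply der_unique
    · intro f g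
      simp only [LinearMap.neg_apply, der_mul]
      noncomm_ring
    · intro i
      simp only [LinearMap.neg_apply, der_iota]
  rw [← this]; rfl

/-- Hoffman's derivation `x₀ ↦ x₀x₁`, `x₁ ↦ -x₀x₁` -/
noncomputable def Mh : Module.End ℚ QX := der fun b => if b then -(X0 * X1) else X0 * X1

/-- the divergence: `a ↦ aa`, `b ↦ bb` in the letters dual to `a = x₀`, `b = -x₁` -/
noncomputable def dl : Module.End ℚ QX := der fun b => if b then -(X1 * X1) else X0 * X0

theorem dl_eq (W : QX) : dl W = Mh W + Ib false W - Ja true W := by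
  have e : (fun b : Bool => if b then -(X1 * X1) else X0 * X0) =
      fun b : Bool => (((if b then -(X0 * X1) else X0 * X1) +
        FreeAlgebra.ι ℚ false * FreeAlgebra.ι ℚ b) + -(FreeAlgebra.ι ℚ b * FreeAlgebra.ι ℚ true)) := by
    funext b
    cases b
    · simp
    · simp
  unfold dl
  rw [e, der_add_fun, der_add_fun, der_neg_fun]
  rfl

theorem Comp.dl {F : QX →ₗ[ℚ] ℚ} (h : Comp F) (W : QX) : F (PV.dl W) = F (Mh W) := by
  rw [dl_eq, map_sub, map_add, h.Ib, h.Ja]; ring

/-- the divergence in the letters dual to `a`, `c`: -/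
noncomputable def dlt : Module.End ℚ QX :=
  der fun b => if b then X1 * X1 else X0 * X0 + X0 * X1 + X1 * X0

theorem dlt_eq (W : QX) : dlt W = dl W + Ib true W + Ja true W := by
  have e : (fun b : Bool => if b then X1 * X1 else X0 * X0 + X0 * X1 + X1 * X0) =
      fun b : Bool => ((if b then -(X1 * X1) else X0 * X0) +
        FreeAlgebra.ι ℚ true * FreeAlgebra.ι ℚ b) + FreeAlgebra.ι ℚ b * FreeAlgebra.ι ℚ true := by
    funext b
    cases b
    · simp; abel
    · simp
  unfold dlt
  rw [e, der_add_fun, der_add_fun]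
  rfl

theorem Comp.dlt {F : QX →ₗ[ℚ] ℚ} (h : Comp F) (W : QX) : F (PV.dlt W) = F (PV.dl W) := by
  rw [dlt_eq, map_add, map_add, h.Ib, h.Ja]; ring

theorem r_dl (W : QX) : rhX (dl W) = dl (rhX W) := by
  unfold dl
  apply conj_der
  intro b
  cases b
  · change rhX (X0 * X0) = der _ (rhX X0)
    rw [map_mul, rhX_X0, map_neg, der_iota]; simp
  · change rhX (-(X1 * X1)) = der _ (rhX X1)
    rw [map_neg, map_mul, rhX_X1, map_neg, der_iota]; simp

theorem t_dl (W : QX) : tT (dl W) = dlt (tT W) := by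
  unfold dl dlt
  apply conj_der
  intro b
  cases b
  · change tT (X0 * X0) = der _ (tT X0)
    rw [map_mul, tT_X0, map_add, der_iota, der_iota]; simp; noncomm_ring
  · change tT (-(X1 * X1)) = der _ (tT X1)
    rw [map_neg, map_mul, tT_X1, map_neg, der_iota]; simp

/-- conjugate of `dl` by `sT` -/
noncomputable def dls : Module.End ℚ QX :=
  der fun b => if b then -(X0 * X1) - X1 * X0 - X1 * X1 else -(X0 * X0)

theorem dls_eq (W : QX) : dls W = dl W + -Ib false W + -Ja false W := by
  have e : (fun b : Bool => if b then -(X0 * X1) - X1 * X0 - X1 * X1 else -(X0 * X0)) =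
      fun b : Bool => ((if b then -(X1 * X1) else X0 * X0) +
        -(FreeAlgebra.ι ℚ false * FreeAlgebra.ι ℚ b)) +
          -(FreeAlgebra.ι ℚ b * FreeAlgebra.ι ℚ false) := by
    funext b
    cases b
    · simp
    · simp; abel
  unfold dls
  rw [e, der_add_fun, der_add_fun, der_neg_fun, der_neg_fun]
  rfl

theorem s_dls (W : QX) : sT (dls W) = dl (sT W) := by
  unfold dl dls
  apply conj_der
  intro b
  cases b
  · change sT (-(X0 * X0)) = der _ (sT X0)
    rw [map_neg, map_mul, sT_X0, map_neg, der_iota]; simp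
  · change sT (-(X0 * X1) - X1 * X0 - X1 * X1) = der _ (sT X1)
    rw [map_sub, map_sub, map_neg, map_mul, map_mul, map_mul, sT_X0, sT_X1, map_add, der_iota,
      der_iota]
    simp only [Bool.false_eq_true, if_false, if_true]
    noncomm_ring

theorem HH_dl_s {ψ : QX} (h : ψ ∈ dm0) (W : QX) : HH ψ (dl (sT W)) = HH ψ (dl W) := by
  rw [← s_dls, HH_s, dls_eq, map_add, map_add, map_neg, map_neg, (HH_comp h).Ib,
    (HH_comp h).Ja]
  ring

/-! ### The divergence of `H` -/

theorem s_Mh (W : QX) : sT (Mh W) = Mh (sT W) + Ib false (sT W) := by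
  have h1 : sT (Mh W) = der (fun b : Bool => if b then 0 else X0 * X0 + X0 * X1) (sT W) := by
    unfold Mh
    apply conj_der
    intro b
    cases b
    · change sT (X0 * X1) = der _ (sT X0)
      rw [map_mul, sT_X0, sT_X1, map_neg, der_iota]; simp; noncomm_ring
    · change sT (-(X0 * X1)) = der _ (sT X1)
      rw [map_neg, map_mul, sT_X0, sT_X1, map_add, der_iota, der_iota]; simp; noncomm_ring
  rw [h1]
  have e : (fun b : Bool => if b then 0 else X0 * X0 + X0 * X1) =
      fun b : Bool => (if b then -(X0 * X1) else X0 * X1) +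
        FreeAlgebra.ι ℚ false * FreeAlgebra.ι ℚ b := by
    funext b
    cases b
    · simp; abel
    · simp
  rw [e, der_add_fun]
  rfl

theorem HH_div {ψ : QX} (h : ψ ∈ dm0) (W : QX) :
    HH ψ (Mh (W * X1)) = lin (coeff ψ) (Mh (sT W)) := by
  have e : Mh (W * X1) = Mh W * X1 - W * X0 * X1 := by
    conv_lhs => rw [Mh, der_mul, der_iota, ← Mh]
    simp only [if_true]
    noncomm_ring
  have g := (good_of_dm0 h).before false (sT W)
  rw [e, map_sub, ← (HH_comp h).cyc true, ← (HH_comp h).cyc true]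
  change HH ψ (X1 * Mh W) - HH ψ (X1 * (W * X0)) = _
  rw [HH_1, HH_1, ← adj_s, ← adj_s, map_mul, sT_X0, s_Mh]
  rw [map_add] at g
  rw [map_add, mul_neg, map_neg]
  linarith

/-- Hoffman's relation in the form of a functional -/
theorem hoff_word (w : List Bool) : ∀ f : List Bool → ℚ, lin f (Mh (word w)) = Cyc.MM f w := by
  induction w with
  | nil =>
    intro f
    rw [word_nil, Mh, der_one, map_zero]; rfl
  | cons b w ih =>
    intro f
    have e : Mh (word (b :: w)) = (if b then (-1 : ℚ) else 1) • word (false :: true :: w) +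
        FreeAlgebra.ι ℚ b * Mh (word w) := by
      rw [word_cons b]
      conv_lhs => rw [Mh, der_mul, der_iota, ← Mh]
      rw [word_cons, word_cons]
      cases b
      · simp [mul_assoc]
      · simp [mul_assoc]
    rw [e, map_add, map_smul, lin_word, lin_cons, ih]
    cases b
    · simp [Cyc.MM, Cyc.pos, Cyc.sg]
    · simp [Cyc.MM, Cyc.pos, Cyc.sg]

/-- the multiplicative function `g(|w|) m₀^(#0) m₁^(#1)` -/
def Cf (g : ℕ → ℚ) (m0 m1 : ℚ) : List Bool → ℚ
  | [] => g 0
  | b :: w => (if b then m1 else m0) * Cf (fun n => g (n + 1)) m0 m1 w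

theorem Cf_cons (g : ℕ → ℚ) (m0 m1 : ℚ) (b : Bool) :
    (fun t => Cf g m0 m1 (b :: t)) =
      fun t => (if b then m1 else m0) * Cf (fun n => g (n + 1)) m0 m1 t := rfl

theorem Cf_hom (F : QX →ₐ[ℚ] QX) (a b c d : ℚ) (h0 : F X0 = a • X0 + b • X1)
    (h1 : F X1 = c • X0 + d • X1) (m0 m1 : ℚ) (w : List Bool) : ∀ g : ℕ → ℚ,
    lin (Cf g m0 m1) (F (word w)) = Cf g (a * m0 + b * m1) (c * m0 + d * m1) w := by
  induction w with
  | nil => intro g; rw [word_nil, map_one, lin_one]; rfl
  | cons x w ih =>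
    intro g
    rw [word_cons, map_mul]
    cases x
    · change lin _ (F X0 * F (word w)) = _
      rw [h0, add_mul, smul_mul_assoc, smul_mul_assoc, map_add, map_smul, map_smul, lin_cons,
        lin_cons, Cf_cons, Cf_cons, lin_mul_fun, lin_mul_fun, ih]
      simp only [Cf, smul_eq_mul, if_true, Bool.false_eq_true, if_false]
      ring
    · change lin _ (F X1 * F (word w)) = _
      rw [h1, add_mul, smul_mul_assoc, smul_mul_assoc, map_add, map_smul, map_smul, lin_cons,
        lin_cons, Cf_cons, Cf_cons, lin_mul_fun, lin_mul_fun, ih]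
      simp only [Cf, smul_eq_mul, if_true, Bool.false_eq_true, if_false]
      ring

theorem Cf_snoc (m0 m1 : ℚ) (b : Bool) (w : List Bool) : ∀ g : ℕ → ℚ,
    Cf g m0 m1 (w ++ [b]) = (if b then m1 else m0) * Cf (fun n => g (n + 1)) m0 m1 w := by
  induction w with
  | nil => intro g; rfl
  | cons x w ih =>
    intro g
    rw [List.cons_append]
    simp only [Cf]
    rw [ih]; ring

theorem Cf_neg (m0 m1 : ℚ) (w : List Bool) : ∀ (g : ℕ → ℚ) (e : ℚ), e * e = 1 →
    (∀ n, g n = 0 ∨ e * (-1) ^ n = 1) → Cf g (-m0) (-m1) w = e * Cf g m0 m1 w := by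
  induction w with
  | nil =>
    intro g e he hg
    simp only [Cf]
    rcases hg 0 with h | h
    · rw [h]; ring
    · rw [pow_zero, mul_one] at h; rw [h]; ring
  | cons x w ih =>
    intro g e he hg
    simp only [Cf]
    rw [ih (fun n => g (n + 1)) (-e) (by rw [neg_mul_neg]; exact he) (fun n => by
      rcases hg (n + 1) with h | h
      · exact Or.inl h
      · refine Or.inr ?_
        rw [pow_succ] at h
        linarith)]
    cases x
    · simp only [Bool.false_eq_true, if_false]; ring
    · simp only [if_true]; ring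

theorem pw_Cf (b : Bool) (w : List Bool) : ∀ g : ℕ → ℚ,
    Cyc.pw b g w = Cf g (if b then 0 else 1) (if b then 1 else 0) w := by
  induction w with
  | nil => intro g; simp [Cyc.pw, Cf]
  | cons x w ih =>
    intro g
    have h1 := Cyc.pw_cons b g (x :: w)
    simp only [Cf]
    rw [← ih]
    unfold Cyc.pw
    rw [List.length_cons, List.replicate_succ]
    cases b <;> cases x <;> simp

end Pool.Agent.MP_a57f33_nt.PV
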