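import Pool.Agent.Lib.MP_a57f33_nt.Hexagon
import Pool.Agent.Lib.MP_a57f33_nt.CycLie
import Pool.Agent.Lib.MP_a57f33_nt.Bridge
import Pool.Agent.Lib.MP_a57f33_nt.PN.DefsA

/-!
# Parity project (MP_a57f33_nt): linear functionals on words

Functionals on `QX` given by functions on words; linear substitutions and derivations.
-/

set_option autoImplicit false

namespace Pool.Agent.MP_a57f33_nt.PV

open Pool.Agent.MP_a57f33_nt
open Pent (der der_mul der_iota der_one der_unique)

/-- the linear extension of a function on words -/
noncomputable def lin (f : List Bool → ℚ) : QX →ₗ[ℚ] ℚ :=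
  (FreeAlgebra.basisFreeMonoid ℚ Bool).constr ℚ fun w => f w.toList

@[simp] theorem lin_word (f : List Bool → ℚ) (w : List Bool) : lin f (word w) = f w := by
  unfold lin
  rw [← basis_apply, Module.Basis.constr_basis]
  simp

theorem lin_one (f : List Bool → ℚ) : lin f 1 = f [] := by
  rw [← word_nil (X := Bool), lin_word]

theorem lin_cons (f : List Bool → ℚ) (b : Bool) (W : QX) :
    lin f (FreeAlgebra.ι ℚ b * W) = lin (fun t => f (b :: t)) W := by
  have : (lin f).comp (LinearMap.mulLeft ℚ (FreeAlgebra.ι ℚ b)) = lin (fun t => f (b :: t)) := by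
    apply linear_ext
    intro w
    simp only [LinearMap.comp_apply, LinearMap.mulLeft_apply, ← word_cons, lin_word]
  exact LinearMap.congr_fun this W

theorem lin_snoc (f : List Bool → ℚ) (b : Bool) (W : QX) :
    lin f (W * FreeAlgebra.ι ℚ b) = lin (fun t => f (t ++ [b])) W := by
  have : (lin f).comp (LinearMap.mulRight ℚ (FreeAlgebra.ι ℚ b)) =
      lin (fun t => f (t ++ [b])) := by
    apply linear_ext
    intro w
    have e : word w * FreeAlgebra.ι ℚ b = word (w ++ [b]) := by
      rw [word_append]; simp
    simp only [LinearMap.comp_apply, LinearMap.mulRight_apply, e, lin_word]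
  exact LinearMap.congr_fun this W

theorem lin_add_fun (f g : List Bool → ℚ) (W : QX) :
    lin (fun t => f t + g t) W = lin f W + lin g W := by
  have : lin (fun t => f t + g t) = lin f + lin g := by
    apply linear_ext
    intro w
    simp only [LinearMap.add_apply, lin_word]
  rw [this, LinearMap.add_apply]

theorem lin_mul_fun (r : ℚ) (f : List Bool → ℚ) (W : QX) :
    lin (fun t => r * f t) W = r * lin f W := by
  have : lin (fun t => r * f t) = r • lin f := by
    apply linear_ext
    intro w
    simp only [LinearMap.smul_apply, lin_word, smul_eq_mul]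
  rw [this, LinearMap.smul_apply, smul_eq_mul]

theorem lin_sub_fun (f g : List Bool → ℚ) (W : QX) :
    lin (fun t => f t - g t) W = lin f W - lin g W := by
  have : lin (fun t => f t - g t) = lin f - lin g := by
    apply linear_ext
    intro w
    simp only [LinearMap.sub_apply, lin_word]
  rw [this, LinearMap.sub_apply]

theorem lin_zero_fun (W : QX) : lin (fun _ => 0) W = 0 := by
  have := lin_mul_fun 0 (fun _ => 0) W
  simpa using this

/-! ### Linear substitutions -/

/-- the algebra endomorphism `x_b ↦ m b x₀ + m' b x₁` -/
noncomputable def homM (m m' : Bool → ℚ) : QX →ₐ[ℚ] QX :=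
  FreeAlgebra.lift ℚ fun b : Bool => m b • X0 + m' b • X1

theorem homM_iota (m m' : Bool → ℚ) (b : Bool) :
    homM m m' (FreeAlgebra.ι ℚ b) = m b • X0 + m' b • X1 := by
  simp [homM]

theorem homM_X0 (m m' : Bool → ℚ) : homM m m' X0 = m false • X0 + m' false • X1 :=
  homM_iota m m' false

theorem homM_X1 (m m' : Bool → ℚ) : homM m m' X1 = m true • X0 + m' true • X1 :=
  homM_iota m m' true

/-- transposed substitution: `x₀ ↦ m false x₀ + m true x₁`, `x₁ ↦ m' false x₀ + m' true x₁` -/
noncomputable def homT (m m' : Bool → ℚ) : QX →ₐ[ℚ] QX :=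
  homM (fun b => if b then m' false else m false) (fun b => if b then m' true else m true)

theorem homT_X0 (m m' : Bool → ℚ) : homT m m' X0 = m false • X0 + m true • X1 := by
  unfold homT; rw [homM_X0]; simp

theorem homT_X1 (m m' : Bool → ℚ) : homT m m' X1 = m' false • X0 + m' true • X1 := by
  unfold homT; rw [homM_X1]; simp

theorem adj_word (m m' : Bool → ℚ) (w : List Bool) : ∀ φ : QX,
    coeff (homM m m' φ) w = lin (coeff φ) (homT m m' (word w)) := by
  induction w with
  | nil =>
    intro φ
    rw [word_nil, map_one, lin_one]
    have : (coeffL ([] : List Bool)).comp (homM m m').toLinearMap = coeffL [] := by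
      apply linear_ext
      intro v
      cases v with
      | nil => simp [coeffL_apply]
      | cons b v =>
        simp only [LinearMap.comp_apply, AlgHom.toLinearMap_apply, word_cons, map_mul, homM_iota,
          add_mul, smul_mul_assoc, map_add, map_smul, coeffL_apply]
        rw [coeff_iota_mul_nil, coeff_iota_mul_nil, coeff_iota_mul_nil]
        simp
    exact LinearMap.congr_fun this φ
  | cons c w ih =>
    intro φ
    have key : ∀ v : List Bool, coeff (homM m m' (word v)) (c :: w) =
        lin (coeff (word v)) (homT m m' (word (c :: w))) := by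
      intro v
      cases v with
      | nil =>
        have e0 : (fun t => coeff (word ([] : List Bool)) (false :: t)) = fun _ => (0 : ℚ) := by
          funext t; rw [coeff_word]; simp
        have e1 : (fun t => coeff (word ([] : List Bool)) (true :: t)) = fun _ => (0 : ℚ) := by
          funext t; rw [coeff_word]; simp
        rw [word_nil, map_one, ← word_nil (X := Bool), coeff_word, if_neg (by simp)]
        rw [word_cons, map_mul]
        cases c
        · rw [homT_X0, add_mul, smul_mul_assoc, smul_mul_assoc, map_add, map_smul, map_smul,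
            lin_cons, lin_cons, e0, e1, lin_zero_fun]
          simp
        · rw [homT_X1, add_mul, smul_mul_assoc, smul_mul_assoc, map_add, map_smul, map_smul,
            lin_cons, lin_cons, e0, e1, lin_zero_fun]
          simp
      | cons b v =>
        have e0 : (fun t => coeff (word (b :: v)) (false :: t)) =
            fun t => (if b = false then 1 else 0) * coeff (word v) t := by
          funext t
          rw [coeff_word, coeff_word]
          cases b <;> simp
        have e1 : (fun t => coeff (word (b :: v)) (true :: t)) =
            fun t => (if b = true then 1 else 0) * coeff (word v) t := by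
          funext t
          rw [coeff_word, coeff_word]
          cases b <;> simp
        have L : coeff (homM m m' (word (b :: v))) (c :: w) =
            (if c then m' b else m b) * coeff (homM m m' (word v)) w := by
          rw [word_cons, map_mul, homM_iota, add_mul, smul_mul_assoc, smul_mul_assoc, coeff_add,
            coeff_smul, coeff_smul, coeff_iota_mul_cons, coeff_iota_mul_cons]
          cases c <;> simp
        rw [L, ih, word_cons c w, map_mul]
        cases c
        · rw [homT_X0, add_mul, smul_mul_assoc, smul_mul_assoc, map_add, map_smul, map_smul,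
            lin_cons, lin_cons, e0, e1, lin_mul_fun, lin_mul_fun]
          cases b <;> simp
        · rw [homT_X1, add_mul, smul_mul_assoc, smul_mul_assoc, map_add, map_smul, map_smul,
            lin_cons, lin_cons, e0, e1, lin_mul_fun, lin_mul_fun]
          cases b <;> simp
    -- linear in `φ`
    have hlin : ∀ W : QX, ∃ L : QX →ₗ[ℚ] ℚ, ∀ φ : QX, L φ = lin (coeff φ) W := by
      intro W
      refine ⟨{ toFun := fun φ => lin (coeff φ) W, map_add' := ?_, map_smul' := ?_ },
        fun φ => rfl⟩
      · intro x y
        have : coeff (x + y) = fun t => coeff x t + coeff y t := by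
          funext t; exact coeff_add x y t
        rw [this, lin_add_fun]
      · intro r x
        have : coeff (r • x) = fun t => r * coeff x t := by
          funext t; exact coeff_smul r x t
        rw [this, lin_mul_fun]; rfl
    obtain ⟨L, hL⟩ := hlin (homT m m' (word (c :: w)))
    rw [← hL]
    have : (coeffL (c :: w)).comp (homM m m').toLinearMap = L := by
      apply linear_ext
      intro v
      rw [hL, ← key v]
      rfl
    exact LinearMap.congr_fun this φ

/-- the adjunction of a linear substitution and its transpose -/
theorem adj (m m' : Bool → ℚ) (φ : QX) (W : QX) :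
    lin (coeff φ) (homT m m' W) = lin (coeff (homM m m' φ)) W := by
  have : (lin (coeff φ)).comp (homT m m').toLinearMap = lin (coeff (homM m m' φ)) := by
    apply linear_ext
    intro w
    rw [lin_word, adj_word]
    rfl
  exact LinearMap.congr_fun this W

/-! ### The three transpositions -/

/-- transpose of `shiftX` -/
noncomputable def sT : QX →ₐ[ℚ] QX := homT (fun b => if b then 0 else -1) (fun _ => 1)
/-- transpose of `ttX` -/
noncomputable def tT : QX →ₐ[ℚ] QX := homT (fun _ => 1) (fun b => if b then -1 else 0)

theorem sT_X0 : sT X0 = -X0 := by unfold sT; rw [homT_X0]; simp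
theorem sT_X1 : sT X1 = X0 + X1 := by unfold sT; rw [homT_X1]; simp
theorem tT_X0 : tT X0 = X0 + X1 := by unfold tT; rw [homT_X0]; simp
theorem tT_X1 : tT X1 = -X1 := by unfold tT; rw [homT_X1]; simp

theorem adj_s (φ W : QX) : lin (coeff φ) (sT W) = lin (coeff (shiftX φ)) W := by
  unfold sT
  rw [adj]
  have : homM (fun b => if b then 0 else -1) (fun _ => 1) = shiftX := by
    apply FreeAlgebra.hom_ext
    funext b
    cases b
    · change homM _ _ X0 = shiftX X0
      rw [homM_X0, shiftX_X0]; simp; abel
    · change homM _ _ X1 = shiftX X1
      rw [homM_X1, shiftX_X1]; simp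
  rw [this]

theorem adj_t (φ W : QX) : lin (coeff φ) (tT W) = lin (coeff (ttX φ)) W := by
  unfold tT
  rw [adj]
  have : homM (fun _ => 1) (fun b => if b then -1 else 0) = ttX := by
    apply FreeAlgebra.hom_ext
    funext b
    cases b
    · change homM _ _ X0 = ttX X0
      rw [homM_X0, ttX_X0]; simp
    · change homM _ _ X1 = ttX X1
      rw [homM_X1, ttX_X1]; simp; abel
  rw [this]

theorem adj_r (φ W : QX) : lin (coeff φ) (rhX W) = lin (coeff (rhX φ)) W := by
  have e1 : homM (fun b => if b then -1 else 0) (fun b => if b then 0 else -1) = rhX := by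
    apply FreeAlgebra.hom_ext
    funext b
    cases b
    · change homM _ _ X0 = rhX X0
      rw [homM_X0, rhX_X0]; simp
    · change homM _ _ X1 = rhX X1
      rw [homM_X1, rhX_X1]; simp
  have e2 : homT (fun b => if b then -1 else 0) (fun b => if b then 0 else -1) = rhX := by
    apply FreeAlgebra.hom_ext
    funext b
    cases b
    · change homT _ _ X0 = rhX X0
      rw [homT_X0, rhX_X0]; simp
    · change homT _ _ X1 = rhX X1
      rw [homT_X1, rhX_X1]; simp
  have := adj (fun b => if b then -1 else 0) (fun b => if b then 0 else -1) φ W
  rw [e1, e2] at this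
  exact this

/-! ### Derivations -/

/-- insert `x` before a letter -/
noncomputable def Ib (x : Bool) : Module.End ℚ QX :=
  der fun y => FreeAlgebra.ι ℚ x * FreeAlgebra.ι ℚ y

/-- insert `x` after a letter -/
noncomputable def Ja (x : Bool) : Module.End ℚ QX :=
  der fun y => FreeAlgebra.ι ℚ y * FreeAlgebra.ι ℚ x

theorem ins_before (x : Bool) (w : List Bool) : ∀ f : List Bool → ℚ,
    lin f (Ib x (word w) + word w * FreeAlgebra.ι ℚ x) = ins x w f := by
  induction w with
  | nil =>
    intro f
    rw [word_nil]
    unfold Ib
    rw [der_one, zero_add, one_mul]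
    have : (FreeAlgebra.ι ℚ x : QX) = word [x] := by simp
    rw [this, lin_word]; rfl
  | cons b w ih =>
    intro f
    have e : Ib x (word (b :: w)) + word (b :: w) * FreeAlgebra.ι ℚ x =
        word (x :: b :: w) +
          FreeAlgebra.ι ℚ b * (Ib x (word w) + word w * FreeAlgebra.ι ℚ x) := by
      rw [word_cons b w]
      conv_lhs => rw [Ib, der_mul, der_iota, ← Ib]
      rw [word_cons x, word_cons b]
      noncomm_ring
    rw [e, map_add, lin_word, lin_cons, ih]
    rfl

theorem ins_after (x : Bool) (w : List Bool) : ∀ f : List Bool → ℚ,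
    lin f (FreeAlgebra.ι ℚ x * word w + Ja x (word w)) = ins x w f := by
  induction w with
  | nil =>
    intro f
    rw [word_nil]
    unfold Ja
    rw [der_one, add_zero, mul_one]
    have : (FreeAlgebra.ι ℚ x : QX) = word [x] := by simp
    rw [this, lin_word]; rfl
  | cons b w ih =>
    intro f
    have e : FreeAlgebra.ι ℚ x * word (b :: w) + Ja x (word (b :: w)) =
        word (x :: b :: w) +
          FreeAlgebra.ι ℚ b * (FreeAlgebra.ι ℚ x * word w + Ja x (word w)) := by
      rw [word_cons b w]
      conv_lhs => rw [Ja, der_mul, der_iota, ← Ja]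
      rw [word_cons x, word_cons b]
      noncomm_ring
    rw [e, map_add, lin_word, lin_cons, ih]
    rfl

/-- a Lie element without linear terms -/
def Good (φ : QX) : Prop := φ ∈ LieX ∧ coeff φ [false] = 0 ∧ coeff φ [true] = 0

theorem Good.coe {φ : QX} (h : Good φ) (x : Bool) : coeff φ [x] = 0 := by
  cases x
  · exact h.2.1
  · exact h.2.2

theorem Good.ins {φ : QX} (h : Good φ) (x : Bool) (w : List Bool) : ins x w (coeff φ) = 0 := by
  by_cases hw : w = []
  · subst hw
    exact h.coe x
  · exact (lie_ins h.1).2 x w hw

theorem Good.before {φ : QX} (h : Good φ) (x : Bool) (W : QX) :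
    lin (coeff φ) (Ib x W + W * FreeAlgebra.ι ℚ x) = 0 := by
  have : (lin (coeff φ)).comp (Ib x + LinearMap.mulRight ℚ (FreeAlgebra.ι ℚ x)) = 0 := by
    apply linear_ext
    intro w
    have := ins_before x w (coeff φ)
    rw [h.ins] at this
    exact this
  exact LinearMap.congr_fun this W

theorem Good.after {φ : QX} (h : Good φ) (x : Bool) (W : QX) :
    lin (coeff φ) (FreeAlgebra.ι ℚ x * W + Ja x W) = 0 := by
  have : (lin (coeff φ)).comp (LinearMap.mulLeft ℚ (FreeAlgebra.ι ℚ x) + Ja x) = 0 := by
    apply linear_ext
    intro w
    have := ins_after x w (coeff φ)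
    rw [h.ins] at this
    exact this
  exact LinearMap.congr_fun this W

end Pool.Agent.MP_a57f33_nt.PV
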