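import Pool.Agent.Lib.MP_a57f33_nt.PN.V.Par
import Pool.Agent.Lib.MP_a57f33_nt.PN.DefsF

/-!
# Parity project (MP_a57f33_nt): the polygon form of the parity statement

A cyclic functional `Z` on words in `a = false` (`P` times) and `b = true` (`k` times) is encoded
by the polynomial `F (z_1, .., z_k) = Σ Z (b a^(m_1) b a^(m_2) .. b a^(m_k)) z^m`, a function of
closed polygons with vertices `z_i`.
-/

set_option autoImplicit false

namespace Pool.Agent.MP_a57f33_nt.PV

open Pool.Agent.MP_a57f33_nt
open Pool.Agent.MP_a57f33_nt.Cyc (shuffle)
open Pent (PolyL)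

/-! ### Generating functions of functions on words -/

/-- `Σ v_0^(m_0) .. v_r^(m_r) f (a^(m_0) b a^(m_1) .. b a^(m_r))` over the words of length `n` -/
def E : ℕ → List ℚ → (List Bool → ℚ) → ℚ
  | 0, [_], f => f []
  | 0, _, _ => 0
  | _ + 1, [], _ => 0
  | n + 1, v :: r, f =>
      v * E n (v :: r) (fun w => f (false :: w)) + E n r (fun w => f (true :: w))

theorem E_nil (n : ℕ) (f : List Bool → ℚ) : E n [] f = 0 := by
  cases n <;> rfl

theorem E_zero_cons2 (a b : ℚ) (r : List ℚ) (f : List Bool → ℚ) : E 0 (a :: b :: r) f = 0 := rfl

theorem E_zero_single (a : ℚ) (f : List Bool → ℚ) : E 0 [a] f = f [] := rfl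

theorem E_succ (n : ℕ) (v : ℚ) (r : List ℚ) (f : List Bool → ℚ) : E (n + 1) (v :: r) f =
    v * E n (v :: r) (fun w => f (false :: w)) + E n r (fun w => f (true :: w)) := rfl

theorem E_add (n : ℕ) : ∀ (v : List ℚ) (f g : List Bool → ℚ),
    E n v (fun w => f w + g w) = E n v f + E n v g := by
  induction n with
  | zero =>
    intro v f g
    match v with
    | [] => simp [E]
    | [_] => simp [E]
    | _ :: _ :: _ => simp [E]
  | succ n ih =>
    intro v f g
    match v with
    | [] => simp [E]
    | a :: r =>
      rw [E_succ, E_succ, E_succ, ih (a :: r) (fun w => f (false :: w)), ih r]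
      ring

theorem E_smul (n : ℕ) : ∀ (v : List ℚ) (c : ℚ) (f : List Bool → ℚ),
    E n v (fun w => c * f w) = c * E n v f := by
  induction n with
  | zero =>
    intro v c f
    match v with
    | [] => simp [E]
    | [_] => simp [E]
    | _ :: _ :: _ => simp [E]
  | succ n ih =>
    intro v c f
    match v with
    | [] => simp [E]
    | a :: r =>
      rw [E_succ, E_succ, ih (a :: r) c (fun w => f (false :: w)),
        ih r c (fun w => f (true :: w))]
      ring

theorem E_zero_fun (n : ℕ) (v : List ℚ) : E n v (fun _ => 0) = 0 := by
  have := E_smul n v 0 (fun _ => 0)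
  simpa using this

theorem E_sum {ι : Type} (n : ℕ) (v : List ℚ) (s : Finset ι) (f : ι → List Bool → ℚ) :
    E n v (fun w => ∑ i ∈ s, f i w) = ∑ i ∈ s, E n v (f i) := by
  classical
  induction s using Finset.induction_on with
  | empty => simpa using E_zero_fun n v
  | insert a s ha ih =>
    rw [Finset.sum_insert ha, ← ih, ← E_add]
    congr 1
    funext w
    rw [Finset.sum_insert ha]

theorem E_comm (n : ℕ) : ∀ (v : List ℚ) (m : ℕ) (u : List ℚ) (g : List Bool → List Bool → ℚ),
    E n v (fun x => E m u (fun y => g x y)) = E m u (fun y => E n v (fun x => g x y)) := by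
  induction n with
  | zero =>
    intro v m u g
    match v with
    | [] => simp only [E]; rw [E_zero_fun]
    | [_] => simp only [E]
    | _ :: _ :: _ => simp only [E]; rw [E_zero_fun]
  | succ n ih =>
    intro v m u g
    match v with
    | [] => simp only [E]; rw [E_zero_fun]
    | a :: r =>
      simp only [E_succ]
      rw [ih (a :: r) m u (fun x y => g (false :: x) y), ih r m u (fun x y => g (true :: x) y),
        E_add, E_smul]

/-- words of a given length only matter -/
theorem E_congr (n : ℕ) : ∀ (v : List ℚ) (f g : List Bool → ℚ),
    (∀ w : List Bool, w.length = n → w.count true + 1 = v.length → f w = g w) →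
    E n v f = E n v g := by
  induction n with
  | zero =>
    intro v f g h
    match v with
    | [] => simp [E]
    | [_] => simp only [E]; exact h [] rfl rfl
    | _ :: _ :: _ => simp [E]
  | succ n ih =>
    intro v f g h
    match v with
    | [] => simp [E]
    | a :: r =>
      rw [E_succ, E_succ, ih (a :: r) (fun w => f (false :: w)) (fun w => g (false :: w)),
        ih r (fun w => f (true :: w)) (fun w => g (true :: w))]
      · intro w hw hc
        apply h
        · simp [hw]
        · simp [List.count_cons]; omega
      · intro w hw hc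
        apply h
        · simp [hw]
        · simp [List.count_cons] at hc ⊢; omega

theorem E_append (n : ℕ) : ∀ (v u : List ℚ) (f : List Bool → ℚ), v ≠ [] → u ≠ [] →
    E (n + 1) (v ++ u) f = ∑ ij ∈ Finset.HasAntidiagonal.antidiagonal n,
      E ij.1 v (fun x => E ij.2 u (fun y => f (x ++ true :: y))) := by
  induction n with
  | zero =>
    intro v u f hv hu
    obtain ⟨a, v, rfl⟩ := List.exists_cons_of_ne_nil hv
    obtain ⟨b, u, rfl⟩ := List.exists_cons_of_ne_nil hu
    rw [Finset.Nat.antidiagonal_zero, Finset.sum_singleton]
    rw [List.cons_append, E_succ]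
    match v with
    | [] =>
      rw [List.nil_append]
      cases u with
      | nil => simp [E]
      | cons c u => simp [E]
    | [a'] => simp [E]
    | a' :: a'' :: v => simp [E]
  | succ n ih =>
    intro v u f hv hu
    obtain ⟨a, v, rfl⟩ := List.exists_cons_of_ne_nil hv
    rw [List.cons_append, E_succ]
    have e1 := ih (a :: v) u (fun w => f (false :: w)) (by simp) hu
    rw [List.cons_append] at e1
    rw [e1, Finset.Nat.sum_antidiagonal_succ, Finset.mul_sum]
    match v with
    | [] =>
      rw [List.nil_append, E_zero_single]
      simp only [E_succ, E_nil, add_zero, List.nil_append, List.cons_append]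
      ring
    | b :: v =>
      rw [ih (b :: v) u (fun w => f (true :: w)) (by simp) hu, E_zero_cons2, zero_add,
        ← Finset.sum_add_distrib]
      apply Finset.sum_congr rfl
      intro ij _
      rw [E_succ]
      rfl

/-! ### Shuffles -/

/-- the sum of `f` over the shuffles of two words -/
def ssh (f : List Bool → ℚ) (x y : List Bool) : ℚ := ((shuffle x y).map f).sum

theorem ssh_nil_left (f : List Bool → ℚ) (y : List Bool) : ssh f [] y = f y := by
  unfold ssh; rw [shuffle]; simp

theorem ssh_nil_right (f : List Bool → ℚ) (x : List Bool) : ssh f x [] = f x := by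
  unfold ssh
  cases x with
  | nil => rw [shuffle]; simp
  | cons a x => rw [shuffle]; simp

theorem ssh_cons (f : List Bool → ℚ) (a b : Bool) (x y : List Bool) :
    ssh f (a :: x) (b :: y) =
      ssh (fun t => f (a :: t)) x (b :: y) + ssh (fun t => f (b :: t)) (a :: x) y := by
  unfold ssh
  rw [shuffle, List.map_append, List.sum_append, List.map_map, List.map_map]
  rfl

/-- the lattice paths of two sequences of vertices -/
def pp : List ℚ → List ℚ → List (List ℚ)
  | [], _ => []
  | _ :: _, [] => []
  | a :: v, b :: u =>
      if v = [] ∧ u = [] then [[a + b]]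
      else (pp v (b :: u)).map ((a + b) :: ·) ++ (pp (a :: v) u).map ((a + b) :: ·)
termination_by v u => v.length + u.length

theorem pp_nil (v : List ℚ) : pp v [] = [] := by
  cases v <;> rw [pp]

/-- the first letter taken from the left word -/
def Lft (f : List Bool → ℚ) (x y : List Bool) : ℚ :=
  match x with
  | [] => 0
  | a :: x => ssh (fun t => f (a :: t)) x y

/-- the first letter taken from the right word -/
def Rgt (f : List Bool → ℚ) (x y : List Bool) : ℚ :=
  match y with
  | [] => 0
  | b :: y => ssh (fun t => f (b :: t)) x y

theorem ssh_split (f : List Bool → ℚ) (x y : List Bool) (h : x ≠ [] ∨ y ≠ []) :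
    ssh f x y = Lft f x y + Rgt f x y := by
  cases x with
  | nil =>
    cases y with
    | nil => simp at h
    | cons b y => simp [Lft, Rgt, ssh_nil_left]
  | cons a x =>
    cases y with
    | nil => simp [Lft, Rgt, ssh_nil_right]
    | cons b y => rw [ssh_cons]; rfl

/-- the convolution of two generating functions -/
def G (n : ℕ) (v u : List ℚ) (f : List Bool → ℚ) : ℚ :=
  ∑ ij ∈ Finset.HasAntidiagonal.antidiagonal n, E ij.1 v (fun x => E ij.2 u (fun y => ssh f x y))

theorem G_succ (n : ℕ) (a b : ℚ) (v u : List ℚ) (f : List Bool → ℚ) :
    G (n + 1) (a :: v) (b :: u) f = (a + b) * G n (a :: v) (b :: u) (fun w => f (false :: w))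
      + G n v (b :: u) (fun w => f (true :: w)) + G n (a :: v) u (fun w => f (true :: w)) := by
  have h1 : G (n + 1) (a :: v) (b :: u) f =
      ∑ ij ∈ Finset.HasAntidiagonal.antidiagonal (n + 1),
        (E ij.1 (a :: v) (fun x => E ij.2 (b :: u) (fun y => Lft f x y))
        + E ij.1 (a :: v) (fun x => E ij.2 (b :: u) (fun y => Rgt f x y))) := by
    unfold G
    apply Finset.sum_congr rfl
    intro ij hij
    rw [← E_add]
    apply E_congr
    intro x hx _
    rw [← E_add]
    apply E_congr
    intro y hy _
    apply ssh_split
    rw [Finset.HasAntidiagonal.mem_antidiagonal] at hij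
    by_contra hc
    push Not at hc
    rw [hc.1] at hx
    rw [hc.2] at hy
    simp at hx hy
    omega
  rw [h1, Finset.sum_add_distrib, Finset.Nat.sum_antidiagonal_succ,
    Finset.Nat.sum_antidiagonal_succ']
  have z1 : E 0 (a :: v) (fun x => E (n + 1) (b :: u) (fun y => Lft f x y)) = 0 := by
    rw [E_congr 0 (a :: v) _ (fun _ => 0), E_zero_fun]
    intro x hx _
    rw [List.length_eq_zero_iff.1 hx]
    exact E_zero_fun _ _
  have z2 : E (n + 1) (a :: v) (fun x => E 0 (b :: u) (fun y => Rgt f x y)) = 0 := by
    rw [E_congr (n + 1) (a :: v) _ (fun _ => 0), E_zero_fun]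
    intro x _ _
    rw [E_congr 0 (b :: u) _ (fun _ => 0), E_zero_fun]
    intro y hy _
    rw [List.length_eq_zero_iff.1 hy]
    rfl
  simp only [z1, z2, zero_add, add_zero]
  unfold G
  rw [Finset.mul_sum, ← Finset.sum_add_distrib, ← Finset.sum_add_distrib,
    ← Finset.sum_add_distrib]
  apply Finset.sum_congr rfl
  intro ij _
  have e1 : E (ij.1 + 1) (a :: v) (fun x => E ij.2 (b :: u) (fun y => Lft f x y)) =
      a * E ij.1 (a :: v) (fun x => E ij.2 (b :: u)
        (fun y => ssh (fun w => f (false :: w)) x y))
      + E ij.1 v (fun x => E ij.2 (b :: u) (fun y => ssh (fun w => f (true :: w)) x y)) := by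
    rw [E_succ]; rfl
  have e2 : E ij.1 (a :: v) (fun x => E (ij.2 + 1) (b :: u) (fun y => Rgt f x y)) =
      b * E ij.1 (a :: v) (fun x => E ij.2 (b :: u)
        (fun y => ssh (fun w => f (false :: w)) x y))
      + E ij.1 (a :: v) (fun x => E ij.2 u (fun y => ssh (fun w => f (true :: w)) x y)) := by
    simp only [E_succ]
    rw [E_add, E_smul]
    rfl
  rw [e1, e2]
  ring

theorem G_nil_left (n : ℕ) (u : List ℚ) (f : List Bool → ℚ) : G n [] u f = 0 := by
  unfold G
  apply Finset.sum_eq_zero
  intro ij _
  exact E_nil _ _

theorem G_nil_right (n : ℕ) (v : List ℚ) (f : List Bool → ℚ) : G n v [] f = 0 := by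
  unfold G
  apply Finset.sum_eq_zero
  intro ij _
  simp only [E_nil]
  exact E_zero_fun _ _

theorem pp_sum (n : ℕ) : ∀ (v u : List ℚ) (f : List Bool → ℚ),
    ((pp v u).map fun p => E n p f).sum = G n v u f := by
  induction n with
  | zero =>
    intro v u f
    have hG : G 0 v u f = E 0 v (fun x => E 0 u (fun y => ssh f x y)) := by
      unfold G; simp
    rw [hG]
    match v, u with
    | [], u => rw [pp]; simp [E]
    | a :: v, [] => rw [pp_nil]; simp only [E_nil, E_zero_fun]; simp
    | [a], [b] => rw [pp]; simp [E, ssh_nil_left]
    | [a], b :: c :: u =>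
      rw [pp, if_neg (by simp), List.map_append, List.sum_append, List.map_map, List.map_map]
      rw [E_zero_single, E_zero_cons2, pp]
      have : ∀ p ∈ pp [a] (c :: u), E 0 ((a + b) :: p) f = 0 := by
        intro p hp
        cases p with
        | nil =>
          exfalso
          rw [pp] at hp
          split_ifs at hp <;> simp at hp
        | cons d p => rfl
      rw [List.map_nil, List.sum_nil, zero_add]
      apply List.sum_eq_zero
      intro q hq
      rw [List.mem_map] at hq
      obtain ⟨p, hp, rfl⟩ := hq
      exact this p hp
    | a :: a' :: v, b :: u =>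
      rw [pp, if_neg (by simp), List.map_append, List.sum_append, List.map_map, List.map_map]
      rw [E_zero_cons2]
      have h1 : ∀ p ∈ pp (a' :: v) (b :: u), E 0 ((a + b) :: p) f = 0 := by
        intro p hp
        cases p with
        | nil =>
          exfalso
          rw [pp] at hp
          split_ifs at hp <;> simp at hp
        | cons d p => rfl
      have h2 : ∀ p ∈ pp (a :: a' :: v) u, E 0 ((a + b) :: p) f = 0 := by
        intro p hp
        cases p with
        | nil =>
          exfalso
          cases u with
          | nil => rw [pp_nil] at hp; simp at hp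
          | cons c u =>
            rw [pp] at hp
            split_ifs at hp <;> simp at hp
        | cons d p => rfl
      have s1 : ((pp (a' :: v) (b :: u)).map ((fun p => E 0 p f) ∘ ((a + b) :: ·))).sum = 0 := by
        apply List.sum_eq_zero
        intro q hq
        rw [List.mem_map] at hq
        obtain ⟨p, hp, rfl⟩ := hq
        exact h1 p hp
      have s2 : ((pp (a :: a' :: v) u).map ((fun p => E 0 p f) ∘ ((a + b) :: ·))).sum = 0 := by
        apply List.sum_eq_zero
        intro q hq
        rw [List.mem_map] at hq
        obtain ⟨p, hp, rfl⟩ := hq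
        exact h2 p hp
      rw [s1, s2, add_zero]
  | succ n ih =>
    intro v u f
    match v, u with
    | [], u => rw [pp, G_nil_left]; simp
    | a :: v, [] => rw [pp_nil, G_nil_right]; simp
    | a :: v, b :: u =>
      rw [G_succ, ← ih, ← ih, ← ih]
      rw [pp]
      split_ifs with h
      · obtain ⟨rfl, rfl⟩ := h
        rw [pp, pp_nil]
        simp [E_succ, E_nil]
      · have key : ∀ L : List (List ℚ), ((L.map ((a + b) :: ·)).map fun p => E (n + 1) p f).sum
            = (a + b) * ((L.map ((a + b) :: ·)).map fun p => E n p (fun w => f (false :: w))).sum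
              + (L.map fun p => E n p (fun w => f (true :: w))).sum := by
          intro L
          induction L with
          | nil => simp
          | cons p L ihL =>
            simp only [List.map_cons, List.sum_cons, E_succ] at ihL ⊢
            rw [ihL]
            ring
        rw [List.map_append, List.sum_append, List.map_append, List.sum_append, key, key]
        ring

/-! ### Functions that kill shuffles -/

/-- kills the proper shuffles -/
def Kil (f : List Bool → ℚ) : Prop := ∀ x y : List Bool, x ≠ [] → y ≠ [] → ssh f x y = 0

theorem Kil.lat {f : List Bool → ℚ} (hf : Kil f) (n : ℕ) (a b c d : ℚ) (v u : List ℚ) :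
    ((pp (a :: b :: v) (c :: d :: u)).map fun p => E n p f).sum = 0 := by
  rw [pp_sum]
  unfold G
  apply Finset.sum_eq_zero
  intro ij _
  rw [E_congr ij.1 (a :: b :: v) _ (fun _ => 0), E_zero_fun]
  intro x _ hx
  rw [E_congr ij.2 (c :: d :: u) _ (fun _ => 0), E_zero_fun]
  intro y _ hy
  apply hf
  · rintro rfl; simp at hx
  · rintro rfl; simp at hy

theorem pp_single (c : ℚ) : ∀ v : List ℚ, v ≠ [] → pp v [c] = [v.map (· + c)] := by
  intro v hv
  induction v with
  | nil => exact absurd rfl hv
  | cons a v ih =>
    cases v with
    | nil => rw [pp]; simp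
    | cons b v =>
      rw [pp, if_neg (by simp), ih (by simp), pp_nil]
      simp

theorem E_zero_len (v : List ℚ) (f : List Bool → ℚ) (h : v.length ≠ 1) : E 0 v f = 0 := by
  match v, h with
  | [], _ => rfl
  | [_], h => simp at h
  | _ :: _ :: _, _ => rfl

theorem Kil.trans {f : List Bool → ℚ} (hf : Kil f) (n : ℕ) (a b c : ℚ) (v : List ℚ) :
    E n ((a :: b :: v).map (· + c)) f = E n (a :: b :: v) f := by
  have h := pp_sum n (a :: b :: v) [c] f
  rw [pp_single _ _ (by simp)] at h
  simp only [List.map_cons, List.map_nil, List.sum_cons, List.sum_nil, add_zero] at h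
  simp only [List.map_cons]
  rw [h]
  unfold G
  rw [Finset.sum_eq_single (n, 0)]
  · simp only [E_zero_single]
    apply E_congr
    intro x _ _
    exact ssh_nil_right f x
  · rintro ⟨i, j⟩ hij hne
    rw [Finset.HasAntidiagonal.mem_antidiagonal] at hij
    simp only at hij ⊢
    have hj : j ≠ 0 := by
      rintro rfl
      apply hne
      simp at hij
      rw [hij]
    rw [E_congr i (a :: b :: v) _ (fun _ => 0), E_zero_fun]
    intro x _ hx
    rw [E_congr j [c] _ (fun _ => 0), E_zero_fun]
    intro y hy _
    apply hf
    · rintro rfl; simp at hx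
    · rintro rfl; simp at hy; omega
  · intro h
    exfalso
    apply h
    simp

/-- the path with start `x` and given increments -/
def path (x : ℚ) : List ℚ → List ℚ
  | [] => [x]
  | e :: r => x :: path (x + e) r

theorem path_ne (x : ℚ) (r : List ℚ) : path x r ≠ [] := by
  cases r <;> simp [path]

theorem length_path (r : List ℚ) : ∀ x : ℚ, (path x r).length = r.length + 1 := by
  induction r with
  | nil => intro x; rfl
  | cons e r ih => intro x; simp [path, ih]

theorem pp_path : ∀ (α β : List ℚ) (a b : ℚ),
    pp (path a α) (path b β) = (shuffle α β).map (path (a + b)) := by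
  intro α
  induction α with
  | nil =>
    intro β
    induction β with
    | nil => intro a b; simp [path, pp, shuffle]
    | cons g β ihb =>
      intro a b
      have h := ihb a (b + g)
      rw [shuffle] at h ⊢
      simp only [path, List.map_cons, List.map_nil] at h ⊢
      rw [pp, if_neg (by simp [path_ne]), h, pp]
      simp only [List.map_nil, List.nil_append, List.map_cons, add_assoc]
  | cons e α iha =>
    intro β
    induction β with
    | nil =>
      intro a b
      have h := iha [] (a + e) b
      rw [show path b [] = [b] from rfl] at h ⊢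
      simp only [path]
      rw [pp, if_neg (by simp [path_ne]), h, pp_nil]
      have hs : shuffle α ([] : List ℚ) = [α] := by
        cases α <;> rw [shuffle]
      rw [hs, shuffle]
      simp only [List.map_cons, List.map_nil, List.append_nil, path]
      rw [add_right_comm]
    | cons g β ihb =>
      intro a b
      have h1 := iha (g :: β) (a + e) b
      have h2 := ihb a (b + g)
      rw [show path a (e :: α) = a :: path (a + e) α from rfl,
        show path b (g :: β) = b :: path (b + g) β from rfl]
      rw [show path b (g :: β) = b :: path (b + g) β from rfl] at h1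
      rw [show path a (e :: α) = a :: path (a + e) α from rfl] at h2
      rw [pp, if_neg (by simp [path_ne]), h1, h2, shuffle, List.map_append]
      simp only [List.map_map]
      congr 1
      · apply List.map_congr_left
        intro t _
        simp only [Function.comp, path]
        rw [add_right_comm]
      · apply List.map_congr_left
        intro t _
        simp only [Function.comp, path]
        rw [add_assoc]

theorem Kil.alt {f : List Bool → ℚ} (hf : Kil f) (n : ℕ) (x : ℚ) (α β : List ℚ)
    (hα : α ≠ []) (hβ : β ≠ []) :
    ((shuffle α β).map fun e => E n (path x e) f).sum = 0 := by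
  obtain ⟨a, α, rfl⟩ := List.exists_cons_of_ne_nil hα
  obtain ⟨b, β, rfl⟩ := List.exists_cons_of_ne_nil hβ
  have h := pp_path (a :: α) (b :: β) x 0
  rw [add_zero] at h
  have h2 : ((shuffle (a :: α) (b :: β)).map fun e => E n (path x e) f) =
      ((pp (path x (a :: α)) (path 0 (b :: β))).map fun p => E n p f) := by
    rw [h, List.map_map]; rfl
  rw [h2]
  have c1 : ∃ p v, path x (a :: α) = x :: p :: v := by
    cases α with
    | nil => exact ⟨x + a, [], rfl⟩
    | cons c α => exact ⟨x + a, _, rfl⟩
  have c2 : ∃ p v, path 0 (b :: β) = 0 :: p :: v := by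
    cases β with
    | nil => exact ⟨0 + b, [], rfl⟩
    | cons c β => exact ⟨0 + b, _, rfl⟩
  obtain ⟨p, v, e1⟩ := c1
  obtain ⟨q, u, e2⟩ := c2
  rw [e1, e2]
  exact hf.lat n x p 0 q v u

/-! ### Insertion of a vertex and doubling -/

/-- the sum of `F` over the insertions of `t` after one of the entries -/
def insS (t : ℚ) : (List ℚ → ℚ) → List ℚ → ℚ
  | _, [] => 0
  | F, x :: r => F (x :: t :: r) + insS t (fun w => F (x :: w)) r

/-- the sum of `f` over the replacements of a letter `b` by `b a^m b` -/
def dbm (m : ℕ) : (List Bool → ℚ) → List Bool → ℚ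
  | _, [] => 0
  | f, x :: r => (if x then f (true :: (List.replicate m false ++ true :: r)) else 0)
      + dbm m (fun t => f (x :: t)) r

/-- the sum of `f` over the insertions of a letter `a` after one of the letters -/
def insA : (List Bool → ℚ) → List Bool → ℚ
  | _, [] => 0
  | f, x :: r => f (x :: false :: r) + insA (fun t => f (x :: t)) r

theorem dbm_add (m : ℕ) (w : List Bool) : ∀ f g : List Bool → ℚ,
    dbm m (fun t => f t + g t) w = dbm m f w + dbm m g w := by
  induction w with
  | nil => intro f g; simp [dbm]
  | cons x r ih =>
    intro f g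
    simp only [dbm]
    rw [ih]
    split_ifs <;> ring

theorem insA_add (w : List Bool) : ∀ f g : List Bool → ℚ,
    insA (fun t => f t + g t) w = insA f w + insA g w := by
  induction w with
  | nil => intro f g; simp [insA]
  | cons x r ih =>
    intro f g
    simp only [insA]
    rw [ih]
    ring

theorem dbm_zero_fun (m : ℕ) (w : List Bool) : dbm m (fun _ => 0) w = 0 := by
  induction w with
  | nil => rfl
  | cons x r ih => simp only [dbm]; rw [ih]; simp

theorem insA_zero_fun (w : List Bool) : insA (fun _ => 0) w = 0 := by
  induction w with
  | nil => rfl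
  | cons x r ih => simp only [insA]; rw [ih]; simp

theorem insA_pow (m : ℕ) : ∀ (f : List Bool → ℚ) (r : List Bool),
    insA f (List.replicate m false ++ true :: r) =
      (m : ℚ) * f (List.replicate (m + 1) false ++ true :: r)
      + f (List.replicate m false ++ true :: false :: r)
      + insA (fun t => f (List.replicate m false ++ true :: t)) r := by
  induction m with
  | zero => intro f r; simp [insA]
  | succ m ih =>
    intro f r
    have h := ih (fun t => f (false :: t)) r
    simp only [List.replicate_succ, List.cons_append, insA] at h ⊢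
    rw [h]
    push_cast
    ring

theorem dbm_insA (m : ℕ) (w : List Bool) : ∀ f : List Bool → ℚ,
    dbm m (insA f) w = insA (dbm m f) w + (m + 1 : ℚ) * dbm (m + 1) f w := by
  induction w with
  | nil => intro f; simp [dbm, insA]
  | cons x r ih =>
    intro f
    simp only [dbm, insA]
    have e1 : dbm m (fun t => insA f (x :: t)) r =
        dbm m (fun t => f (x :: false :: t)) r + dbm m (insA (fun t => f (x :: t))) r := by
      rw [← dbm_add]; rfl
    rw [show (fun t => f (x :: false :: t) + insA (fun t_1 => f (x :: t_1)) t) =
      (fun t => insA f (x :: t)) from rfl, e1, ih]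
    have e2 : insA (fun t => (if x = true then
        f (true :: (List.replicate m false ++ true :: t)) else 0)
        + dbm m (fun t_1 => f (x :: t_1)) t) r =
        (if x = true then insA (fun t => f (true :: (List.replicate m false ++ true :: t))) r
          else 0) + insA (dbm m (fun t => f (x :: t))) r := by
      rw [insA_add]
      congr 1
      split_ifs
      · rfl
      · exact insA_zero_fun r
    rw [e2]
    cases x
    · simp only [Bool.false_eq_true, if_false, zero_add]
      ring
    · simp only [if_true, Bool.false_eq_true, if_false]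
      rw [insA_pow m (fun t => f (true :: t)) r]
      rw [show f (true :: false :: (List.replicate m false ++ true :: r)) =
        f (true :: (List.replicate (m + 1) false ++ true :: r)) by
          rw [List.replicate_succ]; rfl]
      ring

theorem dbm_zero (w : List Bool) : ∀ f : List Bool → ℚ, dbm 0 f w = dbt f w := by
  induction w with
  | nil => intro f; rfl
  | cons x r ih => intro f; simp only [dbm, dbt]; rw [ih]; simp

/-! ### Consequences of the doubling relation -/

theorem ssh_single (b : Bool) (r : List Bool) : ∀ f : List Bool → ℚ,
    ssh f [b] r = f (b :: r) + (match b with | false => insA f r | true => ssh f [true] r - f (true :: r)) := by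
  cases b with
  | true => intro f; simp
  | false =>
    induction r with
    | nil => intro f; simp [ssh_nil_right, insA]
    | cons x r ih =>
      intro f
      rw [ssh_cons, ssh_nil_left, ih]
      rfl

theorem IsPar.insA {P Q : ℕ} {Z : List Bool → ℚ} (h : IsPar P Q Z) (hQ : 2 ≤ Q)
    (w : List Bool) : insA Z w = 0 := by
  match w with
  | [] => rfl
  | [x] =>
    simp only [PV.insA, add_zero]
    apply h.supp
    rintro ⟨_, h2⟩
    cases x <;> simp at h2 <;> omega
  | x :: y :: r =>
    have h1 := h.lie x [false] (y :: r) (by simp) (by simp)
    have h2 := ssh_single false (y :: r) (fun t => Z (x :: t))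
    simp only [ssh] at h2
    rw [h1] at h2
    exact h2.symm

theorem IsPar.dbm {P Q : ℕ} {Z : List Bool → ℚ} (h : IsPar P Q Z) (hQ : 2 ≤ Q) (m : ℕ) :
    ∀ w : List Bool, dbm m Z w = 0 := by
  induction m with
  | zero =>
    intro w
    rw [dbm_zero]
    exact h.dbl w
  | succ m ih =>
    intro w
    have h1 := dbm_insA m w Z
    have e1 : PV.insA Z = fun _ => 0 := funext (h.insA hQ)
    have e2 : PV.dbm m Z = fun _ => 0 := funext ih
    rw [e1, e2, dbm_zero_fun, insA_zero_fun, zero_add] at h1
    have h2 : (m + 1 : ℚ) ≠ 0 := by positivity
    have := h1.symm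
    rw [mul_eq_zero] at this
    exact this.resolve_left h2

theorem IsPar.rot {P Q : ℕ} {Z : List Bool → ℚ} (h : IsPar P Q Z) (u : List Bool) :
    ∀ v : List Bool, Z (u ++ v) = Z (v ++ u) := by
  induction u with
  | nil => intro v; simp
  | cons x u ih =>
    intro v
    rw [List.cons_append, h.cyc, List.append_assoc, ih, List.append_assoc]
    rfl

/-! ### Insertion of a vertex -/

theorem insS_congr (t : ℚ) (v : List ℚ) : ∀ F G : List ℚ → ℚ,
    (∀ z : List ℚ, z.length = v.length + 1 → F z = G z) → insS t F v = insS t G v := by
  induction v with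
  | nil => intro F G _; rfl
  | cons x r ih =>
    intro F G h
    simp only [insS]
    rw [h _ (by simp), ih (fun w => F (x :: w)) (fun w => G (x :: w))]
    intro z hz
    exact h _ (by simp [hz])

theorem insS_zero (t : ℚ) (v : List ℚ) : insS t (fun _ => 0) v = 0 := by
  induction v with
  | nil => rfl
  | cons x r ih => simp only [insS]; rw [ih]; simp

theorem insS_lin (t c : ℚ) (v : List ℚ) : ∀ F G : List ℚ → ℚ,
    insS t (fun z => c * F z + G z) v = c * insS t F v + insS t G v := by
  induction v with
  | nil => intro F G; simp [insS]
  | cons x r ih =>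
    intro F G
    simp only [insS]
    rw [ih]
    ring

/-- runs of the first vertex -/
theorem E_runs (t : ℚ) (r : List ℚ) (n : ℕ) : ∀ h : List Bool → ℚ,
    E (n + 1) (t :: r) h =
      t ^ (n + 1) * E 0 (t :: r) (fun w => h (List.replicate (n + 1) false ++ w))
      + ∑ ij ∈ Finset.HasAntidiagonal.antidiagonal n,
        t ^ ij.1 * E ij.2 r (fun w => h (List.replicate ij.1 false ++ true :: w)) := by
  induction n with
  | zero =>
    intro h
    rw [E_succ]
    simp
  | succ n ih =>
    intro h
    rw [E_succ, ih, Finset.Nat.sum_antidiagonal_succ]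
    simp only [List.replicate_succ, List.cons_append, List.replicate_zero, List.nil_append,
      pow_zero, one_mul]
    rw [mul_add, Finset.mul_sum]
    have : ∀ ij : ℕ × ℕ, t * (t ^ ij.1 * E ij.2 r (fun w =>
        h (false :: (List.replicate ij.1 false ++ true :: w)))) =
        t ^ (ij.1 + 1) * E ij.2 r (fun w =>
        h (false :: (List.replicate ij.1 false ++ true :: w))) := by
      intro ij; ring
    simp only [this]
    ring

/-- the generating function of the doubled functions -/
def RR (t : ℚ) (n : ℕ) (v : List ℚ) (f : List Bool → ℚ) : ℚ :=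
  ∑ ij ∈ Finset.HasAntidiagonal.antidiagonal n,
    t ^ ij.1 * E ij.2 v (fun w => dbm ij.1 f w + f (w ++ true :: List.replicate ij.1 false))

theorem RR_nil (t : ℚ) (n : ℕ) (f : List Bool → ℚ) : RR t n [] f = 0 := by
  unfold RR
  apply Finset.sum_eq_zero
  intro ij _
  rw [E_nil, mul_zero]

theorem insS_E_zero (t : ℚ) (v : List ℚ) (f : List Bool → ℚ) :
    insS t (fun z => E 0 z f) v = 0 := by
  cases v with
  | nil => rfl
  | cons x r =>
    rw [insS_congr t (x :: r) _ (fun _ => 0), insS_zero]
    intro z hz
    exact E_zero_len z f (by simp at hz; omega)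

theorem insS_E_succ (t : ℚ) (n : ℕ) (x : ℚ) (r : List ℚ) (f : List Bool → ℚ) :
    insS t (fun z => E (n + 1) z f) (x :: r) =
      x * insS t (fun z => E n z (fun w => f (false :: w))) (x :: r)
      + insS t (fun z => E n z (fun w => f (true :: w))) r
      + E n (t :: r) (fun w => f (true :: w)) := by
  simp only [insS]
  rw [E_succ]
  have : insS t (fun w => E (n + 1) (x :: w) f) r =
      insS t (fun w => x * E n (x :: w) (fun w => f (false :: w))
        + E n w (fun w => f (true :: w))) r := by
    apply insS_congr
    intro z _
    rw [E_succ]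
  rw [this, insS_lin t x r (fun w => E n (x :: w) (fun w => f (false :: w)))
    (fun w => E n w (fun w => f (true :: w)))]
  ring

theorem insS_E (t : ℚ) (n : ℕ) : ∀ (v : List ℚ) (f : List Bool → ℚ),
    insS t (fun z => E (n + 1) z f) v = RR t n v f := by
  induction n with
  | zero =>
    intro v f
    cases v with
    | nil => rw [RR_nil]; rfl
    | cons x r =>
      rw [insS_E_succ, insS_E_zero, insS_E_zero]
      unfold RR
      rw [Finset.Nat.antidiagonal_zero, Finset.sum_singleton]
      cases r with
      | nil => simp [E, dbm]
      | cons y r => simp [E]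
  | succ n ih =>
    intro v f
    cases v with
    | nil => rw [RR_nil]; rfl
    | cons x r =>
      rw [insS_E_succ, ih, ih, E_runs]
      unfold RR
      rw [Finset.Nat.sum_antidiagonal_succ']
      have e0 : E 0 (x :: r) (fun w => dbm (n + 1) f w +
          f (w ++ true :: List.replicate (n + 1) false)) =
          E 0 (t :: r) (fun w => f (true :: (List.replicate (n + 1) false ++ w))) := by
        cases r with
        | nil => simp [E, dbm]
        | cons y r => rfl
      simp only [e0]
      rw [Finset.mul_sum]
      have e1 : ∀ ij : ℕ × ℕ, t ^ ij.1 * E (ij.2 + 1) (x :: r)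
          (fun w => dbm ij.1 f w + f (w ++ true :: List.replicate ij.1 false)) =
          x * (t ^ ij.1 * E ij.2 (x :: r) (fun w => dbm ij.1 (fun w => f (false :: w)) w
            + f (false :: (w ++ true :: List.replicate ij.1 false))))
          + t ^ ij.1 * E ij.2 r (fun w => dbm ij.1 (fun w => f (true :: w)) w
            + f (true :: (w ++ true :: List.replicate ij.1 false)))
          + t ^ ij.1 * E ij.2 r (fun w =>
              f (true :: (List.replicate ij.1 false ++ true :: w))) := by
        intro ij
        rw [E_succ]
        have a1 : (fun w : List Bool => dbm ij.1 f (false :: w) +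
            f (false :: w ++ true :: List.replicate ij.1 false)) =
            (fun w => dbm ij.1 (fun w => f (false :: w)) w
            + f (false :: (w ++ true :: List.replicate ij.1 false))) := by
          funext w
          simp [dbm]
        have a2 : (fun w : List Bool => dbm ij.1 f (true :: w) +
            f (true :: w ++ true :: List.replicate ij.1 false)) =
            (fun w => (dbm ij.1 (fun w => f (true :: w)) w
            + f (true :: (w ++ true :: List.replicate ij.1 false)))
            + f (true :: (List.replicate ij.1 false ++ true :: w))) := by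
          funext w
          simp [dbm]
          ring
        rw [a1, a2, E_add ij.2 r (fun w => dbm ij.1 (fun w => f (true :: w)) w
            + f (true :: (w ++ true :: List.replicate ij.1 false)))]
        ring
      simp only [e1]
      rw [Finset.sum_add_distrib, Finset.sum_add_distrib]
      ring

/-! ### The function of polygons -/

/-- the polynomial of a cyclic functional -/
def poly (Z : List Bool → ℚ) (N : ℕ) (z : List ℚ) : ℚ := E N z (fun w => Z (true :: w))

theorem poly_rot {P Q : ℕ} {Z : List Bool → ℚ} (h : IsPar P Q Z) (n : ℕ) (x : ℚ)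
    (z : List ℚ) : poly Z n (x :: z) = poly Z n (z ++ [x]) := by
  cases z with
  | nil => rfl
  | cons y z =>
    cases n with
    | zero =>
      unfold poly
      rw [E_zero_len _ _ (by simp), E_zero_len _ _ (by simp)]
    | succ n =>
      unfold poly
      have e1 := E_append n [x] (y :: z) (fun w => Z (true :: w)) (by simp) (by simp)
      have e2 := E_append n (y :: z) [x] (fun w => Z (true :: w)) (by simp) (by simp)
      rw [List.singleton_append] at e1
      rw [e1, e2]
      rw [← Finset.Nat.sum_antidiagonal_swap]
      apply Finset.sum_congr rfl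
      intro ij _
      simp only [Prod.fst_swap, Prod.snd_swap]
      rw [E_comm]
      apply E_congr
      intro u _ _
      apply E_congr
      intro w _ _
      have := h.rot (true :: w) (true :: u)
      simpa using this

theorem poly_ins {P Q : ℕ} {Z : List Bool → ℚ} (h : IsPar P Q Z) (hQ : 2 ≤ Q) (n : ℕ)
    (t : ℚ) (v : List ℚ) : insS t (poly Z n) v = 0 := by
  cases n with
  | zero => exact insS_E_zero t v _
  | succ n =>
    have h1 := insS_E t n v (fun w => Z (true :: w))
    change insS t (fun z => E (n + 1) z (fun w => Z (true :: w))) v = 0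
    rw [h1]
    unfold RR
    apply Finset.sum_eq_zero
    intro ij _
    rw [E_congr ij.2 v _ (fun _ => 0), E_zero_fun, mul_zero]
    intro w _ _
    have h2 := h.dbm hQ ij.1 (true :: w)
    simp only [dbm, if_true] at h2
    have h3 := h.rot (true :: w) (true :: List.replicate ij.1 false)
    rw [List.cons_append, List.cons_append] at h3
    change dbm ij.1 (fun w => Z (true :: w)) w
      + Z (true :: (w ++ true :: List.replicate ij.1 false)) = 0
    rw [h3, ← h2]
    ring

theorem Kil_of {P Q : ℕ} {Z : List Bool → ℚ} (h : IsPar P Q Z) (x : Bool) :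
    Kil (fun w => Z (x :: w)) := fun u v hu hv => h.lie x u v hu hv

theorem E_scale (c : ℚ) (n : ℕ) : ∀ (v : List ℚ) (f : List Bool → ℚ),
    E n (v.map (c * ·)) f * c ^ v.length = c ^ (n + 1) * E n v f := by
  induction n with
  | zero =>
    intro v f
    match v with
    | [] => simp [E]
    | [_] => simp [E]; ring
    | _ :: _ :: _ => simp [E]
  | succ n ih =>
    intro v f
    match v with
    | [] => simp [E]
    | x :: r =>
      have h1 := ih (x :: r) (fun w => f (false :: w))
      have h2 := ih r (fun w => f (true :: w))
      rw [List.map_cons, E_succ, E_succ]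
      rw [List.map_cons] at h1
      rw [List.length_cons] at h1 ⊢
      linear_combination c * x * h1 + c * h2

theorem E_poly (n : ℕ) : ∀ (k i : ℕ) (f : List Bool → ℚ), ∃ F : MvPolynomial ℕ ℚ,
    ∀ l : List ℚ, l.length = i + k →
      E n (l.drop i) f = MvPolynomial.eval (fun j => l.getD j 0) F := by
  induction n with
  | zero =>
    intro k i f
    by_cases hk : k = 1
    · subst hk
      refine ⟨MvPolynomial.C (f []), ?_⟩
      intro l hl
      rw [MvPolynomial.eval_C]
      have : (l.drop i).length = 1 := by simp; omega
      obtain ⟨a, ha⟩ := List.length_eq_one_iff.1 this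
      rw [ha]; rfl
    · refine ⟨0, ?_⟩
      intro l hl
      rw [map_zero]
      apply E_zero_len
      simp; omega
  | succ n ih =>
    intro k i f
    cases k with
    | zero =>
      refine ⟨0, ?_⟩
      intro l hl
      rw [map_zero]
      rw [List.drop_eq_nil_of_le (by omega)]
      exact E_nil _ _
    | succ k =>
      obtain ⟨F1, h1⟩ := ih (k + 1) i (fun w => f (false :: w))
      obtain ⟨F2, h2⟩ := ih k (i + 1) (fun w => f (true :: w))
      refine ⟨MvPolynomial.X i * F1 + F2, ?_⟩
      intro l hl
      rw [map_add, map_mul, MvPolynomial.eval_X, ← h1 l hl, ← h2 l (by omega)]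
      rw [List.drop_eq_getElem_cons (show i < l.length by omega), E_succ,
        List.getD_eq_getElem _ _ (show i < l.length by omega)]

/-- the polynomial in the first vertex -/
noncomputable def pf : ℕ → List ℚ → (List Bool → ℚ) → Polynomial ℚ
  | 0, [], f => Polynomial.C (f [])
  | 0, _ :: _, _ => 0
  | n + 1, r, f => Polynomial.X * pf n r (fun w => f (false :: w))
      + Polynomial.C (E n r (fun w => f (true :: w)))

theorem pf_eval (n : ℕ) (x : ℚ) (r : List ℚ) : ∀ f : List Bool → ℚ,
    (pf n r f).eval x = E n (x :: r) f := by
  induction n with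
  | zero =>
    intro f
    cases r with
    | nil => simp [pf, E]
    | cons y r => simp [pf, E]
  | succ n ih =>
    intro f
    rw [pf, E_succ, Polynomial.eval_add, Polynomial.eval_mul, Polynomial.eval_X,
      Polynomial.eval_C, ih]

theorem E_inj (n : ℕ) : ∀ (k : ℕ) (f : List Bool → ℚ),
    (∀ v : List ℚ, v.length = k → E n v f = 0) →
    ∀ w : List Bool, w.length = n → w.count true + 1 = k → f w = 0 := by
  induction n with
  | zero =>
    intro k f h w hw hc
    rw [List.length_eq_zero_iff.1 hw] at hc ⊢
    simp at hc
    have := h [0] (by simp [← hc])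
    exact this
  | succ n ih =>
    intro k f h w hw hc
    cases k with
    | zero => omega
    | succ k =>
      have key : ∀ r : List ℚ, r.length = k → pf n r (fun w => f (false :: w)) = 0 ∧
          E n r (fun w => f (true :: w)) = 0 := by
        intro r hr
        have h0 : pf (n + 1) r f = 0 := by
          apply Polynomial.funext
          intro x
          rw [pf_eval, h _ (by simp [hr])]
          simp
        rw [pf] at h0
        constructor
        · ext m
          have := congrArg (fun p => Polynomial.coeff p (m + 1)) h0
          simp only [Polynomial.coeff_add, Polynomial.coeff_X_mul, Polynomial.coeff_C,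
            Polynomial.coeff_zero] at this
          simpa using this
        · have := congrArg (fun p => Polynomial.coeff p 0) h0
          simp only [Polynomial.coeff_add, Polynomial.mul_coeff_zero, Polynomial.coeff_X_zero,
            Polynomial.coeff_C_zero, Polynomial.coeff_zero, zero_mul, zero_add] at this
          exact this
      cases w with
      | nil => simp at hw
      | cons b w =>
        cases b with
        | false =>
          apply ih (k + 1) (fun w => f (false :: w)) _ w (by simpa using hw)
            (by rw [List.count_cons_of_ne (by decide)] at hc; exact hc)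
          intro v hv
          cases v with
          | nil => simp at hv
          | cons x r =>
            rw [← pf_eval, (key r (by simpa using hv)).1]
            simp
        | true =>
          apply ih k (fun w => f (true :: w)) _ w (by simpa using hw)
            (by rw [List.count_cons_self] at hc; omega)
          intro v hv
          exact (key v hv).2

/-! ### The statement -/

/-- **Polygon form of the parity statement.** A polynomial function of `k` points of the line,
homogeneous of degree `P`: cyclic, translation invariant, killed by the insertions of a vertex,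
and killed by the proper shuffles of the edges. -/
structure IsPoly (k P : ℕ) (F : List ℚ → ℚ) : Prop where
  /-- polynomial -/
  poly : PolyL k F
  /-- homogeneous of degree `P` -/
  hom : ∀ (c : ℚ) (z : List ℚ), c ≠ 0 → z.length = k → F (z.map (c * ·)) = c ^ P * F z
  /-- cyclic -/
  cyc : ∀ (x : ℚ) (z : List ℚ), z.length + 1 = k → F (x :: z) = F (z ++ [x])
  /-- translation invariant -/
  trans : ∀ (c : ℚ) (z : List ℚ), z.length = k → F (z.map (· + c)) = F z
  /-- insertions of a vertex -/
  ins : ∀ (t : ℚ) (z : List ℚ), z.length + 1 = k → insS t F z = 0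
  /-- shuffles of two strings of edges -/
  alt : ∀ (x : ℚ) (α β : List ℚ), α ≠ [] → β ≠ [] → α.length + β.length + 1 = k →
    ((shuffle α β).map fun e => F (path x e)).sum = 0

/-- **(PAR), polygon form** -/
def S_MOULD : Prop := ∀ (k P : ℕ) (F : List ℚ → ℚ), 3 ≤ k → Odd P → IsPoly k P F →
  ∀ z : List ℚ, z.length = k → F z = 0

theorem isPoly_of_isPar {P k : ℕ} {Z : List Bool → ℚ} (h : IsPar P k Z) (hk : 2 ≤ k) :
    IsPoly k P (poly Z (P + (k - 1))) := by
  refine ⟨?_, ?_, ?_, ?_, ?_, ?_⟩
  · obtain ⟨F, hF⟩ := E_poly (P + (k - 1)) k 0 (fun w => Z (true :: w))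
    refine ⟨F, fun l hl => ?_⟩
    have := hF l (by omega)
    rw [List.drop_zero] at this
    exact this
  · intro c z hc hz
    have h1 := E_scale c (P + (k - 1)) z (fun w => Z (true :: w))
    rw [hz, show P + (k - 1) + 1 = P + k by omega, pow_add] at h1
    have hck : c ^ k ≠ 0 := pow_ne_zero _ hc
    apply mul_right_cancel₀ hck
    unfold poly
    rw [h1]
    ring
  · intro x z _
    exact poly_rot h _ x z
  · intro c z hz
    match z, hz with
    | [], hz => simp at hz; omega
    | [_], hz => simp at hz; omega
    | a :: b :: r, _ => exact (Kil_of h true).trans _ a b c r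
  · intro t z _
    exact poly_ins h hk _ t z
  · intro x α β hα hβ _
    exact (Kil_of h true).alt _ x α β hα hβ

theorem IsPar.zero_of_poly {P k : ℕ} {Z : List Bool → ℚ} (h : IsPar P k Z) (hk : 1 ≤ k)
    (h0 : ∀ z : List ℚ, z.length = k → poly Z (P + (k - 1)) z = 0) : ∀ w, Z w = 0 := by
  intro w
  by_cases hw : w.count false = P ∧ w.count true = k
  · obtain ⟨h1, h2⟩ := hw
    have ht : true ∈ w := by
      rw [← List.count_pos_iff, h2]; exact hk
    obtain ⟨u, v, rfl⟩ := List.append_of_mem ht
    rw [h.rot]
    have hlen := List.count_false_add_count_true (v ++ u)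
    rw [List.count_append, List.count_cons_of_ne (by decide)] at h1
    rw [List.count_append, List.count_cons_self] at h2
    rw [List.count_append, List.count_append] at hlen
    exact E_inj _ k (fun w => Z (true :: w)) h0 (v ++ u) (by omega)
      (by rw [List.count_append]; omega)
  · exact h.supp w hw

/-- **The polygon form implies the parity statement.** -/
theorem S_PAR_of_MOULD (h : S_MOULD) : S_PAR := by
  intro P Q hP hQ Z hZ
  apply hZ.zero_of_poly (by omega)
  intro z hz
  have hp := isPoly_of_isPar hZ hQ
  by_cases h3 : 3 ≤ Q
  · exact h Q P _ h3 hP hp z hz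
  · have : Q = 2 := by omega
    subst this
    match z, hz with
    | [x, y], _ =>
      have := hp.ins y [x] rfl
      simpa [insS] using this

end Pool.Agent.MP_a57f33_nt.PV
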