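import Pool.Agent.Lib.MP_a57f33_nt.PN.V.Ham

/-!
# Parity project (MP_a57f33_nt): `(PAR)` implies duality and the hexagon for `dm0`
-/

set_option autoImplicit false

namespace Pool.Agent.MP_a57f33_nt.PV

open Pool.Agent.MP_a57f33_nt
open Pent (der der_mul der_iota der_one der_unique)

/-- the sum of `Z` over the words obtained from a word by doubling one of its letters `true` -/
def dbt : (List Bool → ℚ) → List Bool → ℚ
  | _, [] => 0
  | Z, x :: r => (if x then Z (true :: true :: r) else 0) + dbt (fun t => Z (x :: t)) r

/-- cyclic functional on words with `P` letters `false` and `Q` letters `true`, Lie at both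
letters, killed by doubling of one letter `true` -/
structure IsPar (P Q : ℕ) (Z : List Bool → ℚ) : Prop where
  supp : ∀ w : List Bool, ¬ (w.count false = P ∧ w.count true = Q) → Z w = 0
  cyc : ∀ (x : Bool) (w : List Bool), Z (x :: w) = Z (w ++ [x])
  lie : ∀ (x : Bool) (u v : List Bool), u ≠ [] → v ≠ [] →
    ((Cyc.shuffle u v).map fun t => Z (x :: t)).sum = 0
  dbl : ∀ w : List Bool, dbt Z w = 0

/-- **The parity statement** -/
def S_PAR : Prop := ∀ P Q : ℕ, Odd P → 2 ≤ Q → ∀ Z : List Bool → ℚ, IsPar P Q Z → ∀ w, Z w = 0

/-! ### The functions `Cf` -/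

theorem Cf_eq (m0 m1 : ℚ) (w : List Bool) : ∀ g : ℕ → ℚ,
    Cf g m0 m1 w = g w.length * (m0 ^ w.count false * m1 ^ w.count true) := by
  induction w with
  | nil => intro g; simp [Cf]
  | cons x w ih =>
    intro g
    simp only [Cf]
    rw [ih]
    cases x
    · simp only [Bool.false_eq_true, if_false, List.length_cons, List.count_cons_self, pow_succ,
        List.count_cons_of_ne (show (true : Bool) ≠ false by decide)]
      rw [List.count_cons_of_ne (by decide)]
      ring
    · simp only [if_true, List.length_cons, List.count_cons_self, pow_succ]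
      rw [List.count_cons_of_ne (by decide)]
      ring

/-- shifted sequence -/
def sh1 (g : ℕ → ℚ) : ℕ → ℚ
  | 0 => 0
  | n + 1 => g n

/-- the divergence of `H` on words -/
def Ef (g : ℕ → ℚ) (w : List Bool) : ℚ :=
  Cf (sh1 g) 0 1 w - Cf (sh1 g) (-1) 1 w + Cf (sh1 g) (-1) 0 w

theorem Ef_fun (g : ℕ → ℚ) (W : QX) : lin (Ef g) W =
    lin (Cf (sh1 g) 0 1) W - lin (Cf (sh1 g) (-1) 1) W + lin (Cf (sh1 g) (-1) 0) W := by
  have : Ef g = fun w => (Cf (sh1 g) 0 1 w - Cf (sh1 g) (-1) 1 w) + Cf (sh1 g) (-1) 0 w := rfl
  rw [this, lin_add_fun, lin_sub_fun]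

/-! ### The divergence of `H` -/

theorem Mh_tr {F : QX →ₗ[ℚ] ℚ} (h : Comp F) (U V : QX) : F (Mh (U * V)) = F (Mh (V * U)) := by
  have e : ∀ U V : QX, Mh (U * V) = Mh U * V + U * Mh V := fun U V => der_mul _ U V
  rw [e, e, map_add, map_add, h.tr (Mh U) V, h.tr U (Mh V)]
  ring

theorem zs_succ (n : ℕ) : word (zs (n + 1)) = X0 * word (zs n) := by
  change word (List.replicate (n + 1) false) = _
  rw [List.replicate_succ, word_cons]

theorem dl_zs (n : ℕ) : dl (word (zs n)) = (n : ℚ) • word (zs (n + 1)) := by
  induction n with
  | zero => simp [dl, der_one]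
  | succ n ih =>
    have e : word (zs (n + 1)) = X0 * word (zs n) := zs_succ n
    have e2 : word (zs (n + 1 + 1)) = X0 * (X0 * word (zs n)) := by
      rw [zs_succ, zs_succ]
    conv_lhs => rw [e, dl, der_mul, der_iota, ← dl, ih, e]
    rw [e2]
    simp only [Bool.false_eq_true, if_false, Nat.cast_add, Nat.cast_one, add_smul, one_smul,
      mul_smul_comm, mul_assoc]
    abel

theorem theta_word {ψ : QX} (h : ψ ∈ dm0) (w : List Bool) :
    HH ψ (Mh (word w)) = Ef (Cyc.gseq (coeff ψ)) w := by
  set g := Cyc.gseq (coeff ψ) with hg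
  have hoff : ∀ W, lin (coeff ψ) (Mh W) = lin (Cf g 0 1) W - lin (Cf g 1 0) W := by
    intro W
    have : (lin (coeff ψ)).comp Mh = lin (Cf g 0 1) - lin (Cf g 1 0) := by
      apply linear_ext
      intro w
      rw [LinearMap.comp_apply, hoff_word, Cyc.MM_DS1 (dm0_subset_DS1 h), LinearMap.sub_apply,
        lin_word, lin_word, pw_Cf, pw_Cf]
      simp [hg]
    exact LinearMap.congr_fun this W
  by_cases ht : true ∈ w
  · obtain ⟨u, v, rfl⟩ := List.append_of_mem ht
    have e1 : word (u ++ true :: v) = word u * (X1 * word v) := by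
      rw [word_append, word_cons]
    have e2 : word v * word u = word (v ++ u) := by rw [word_append]
    rw [e1, ← mul_assoc, Mh_tr (HH_comp h), ← mul_assoc, e2, HH_div h, hoff]
    rw [Cf_hom sT (-1) 0 1 1 (by rw [sT_X0]; simp) (by rw [sT_X1]; simp),
      Cf_hom sT (-1) 0 1 1 (by rw [sT_X0]; simp) (by rw [sT_X1]; simp)]
    unfold Ef
    simp only [Cf_eq]
    have hl : (u ++ true :: v).length = (v ++ u).length + 1 := by
      simp only [List.length_append, List.length_cons]; omega
    have hf : (u ++ true :: v).count false = (v ++ u).count false := by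
      rw [List.count_append, List.count_append, List.count_cons_of_ne (by decide)]; omega
    have htt : (u ++ true :: v).count true = (v ++ u).count true + 1 := by
      rw [List.count_append, List.count_append, List.count_cons_self]; omega
    rw [hl, hf, htt]
    simp only [sh1]
    ring_nf
  · have e : w = zs w.length := by
      rw [List.eq_replicate_iff]
      refine ⟨rfl, fun b hb => ?_⟩
      cases b with
      | false => rfl
      | true => exact absurd hb ht
    set n := w.length with hn
    rw [e, ← (HH_comp h).dl, dl_zs, map_smul]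
    have h1 : (n : ℚ) • HH ψ (word (zs (n + 1))) = 0 := by
      have e3 : word (zs (n + 1)) = X0 * word (zs n) := zs_succ n
      rw [e3, HH_0, lin_word, lin_word, lie_zs h.1 h.2.1,
        lie_zs (good_shift (good_of_dm0 h)).1 (good_shift (good_of_dm0 h)).2.1]
      simp
    rw [h1]
    unfold Ef
    simp only [Cf_eq, List.length_replicate]
    have hc : List.count true (zs n) = 0 := by
      rw [List.count_replicate]; simp
    have hc2 : List.count false (zs n) = n := by
      rw [List.count_replicate]; simp
    rw [hc, hc2]
    rcases n with _ | n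
    · simp [sh1]
    · simp [sh1]

theorem theta {ψ : QX} (h : ψ ∈ dm0) (W : QX) :
    HH ψ (Mh W) = lin (Ef (Cyc.gseq (coeff ψ))) W := by
  have : (HH ψ).comp Mh = lin (Ef (Cyc.gseq (coeff ψ))) := by
    apply linear_ext
    intro w
    rw [lin_word, ← theta_word h]
    rfl
  exact LinearMap.congr_fun this W

/-- the depth one coefficients of odd degree vanish -/
theorem g_odd {ψ : QX} (h : ψ ∈ dm0) (n : ℕ) (hn : Odd n) : Cyc.gseq (coeff ψ) n = 0 := by
  set g := Cyc.gseq (coeff ψ) with hg
  set w : List Bool := false :: List.replicate n true with hw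
  have h1 : HH ψ (Mh (sT (word w))) = HH ψ (Mh (word w)) := by
    rw [← (HH_comp h).dl, ← (HH_comp h).dl, HH_dl_s h]
  rw [theta h, theta h, Ef_fun, Ef_fun] at h1
  rw [Cf_hom sT (-1) 0 1 1 (by rw [sT_X0]; simp) (by rw [sT_X1]; simp),
    Cf_hom sT (-1) 0 1 1 (by rw [sT_X0]; simp) (by rw [sT_X1]; simp),
    Cf_hom sT (-1) 0 1 1 (by rw [sT_X0]; simp) (by rw [sT_X1]; simp), lin_word, lin_word,
    lin_word] at h1
  simp only [Cf_eq] at h1
  have hl : w.length = n + 1 := by simp [hw]
  have hf : w.count false = 1 := by
    rw [hw, List.count_cons_self, List.count_replicate]; simp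
  have ht : w.count true = n := by
    rw [hw, List.count_cons_of_ne (by decide), List.count_replicate]; simp
  rw [hl, hf, ht] at h1
  simp only [sh1] at h1
  have hn0 : n ≠ 0 := by
    rintro rfl
    simp at hn
  simp only [neg_zero, zero_add, neg_one_mul, add_zero, one_pow, neg_neg, pow_one,
    mul_zero, zero_pow hn0, neg_add_cancel, mul_one, one_mul, hn.neg_one_pow] at h1
  linarith

theorem sh_par {ψ : QX} (h : ψ ∈ dm0) (n : ℕ) :
    sh1 (Cyc.gseq (coeff ψ)) n = 0 ∨ (-1 : ℚ) * (-1) ^ n = 1 := by
  rcases n with _ | n
  · left; rfl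
  · rcases Nat.even_or_odd n with hn | hn
    · right
      rw [pow_succ, hn.neg_one_pow]; ring
    · left
      exact g_odd h n hn

theorem Cf_par {ψ : QX} (h : ψ ∈ dm0) (m0 m1 : ℚ) (w : List Bool) :
    Cf (sh1 (Cyc.gseq (coeff ψ))) (-m0) (-m1) w =
      - Cf (sh1 (Cyc.gseq (coeff ψ))) m0 m1 w := by
  rw [Cf_neg m0 m1 w _ (-1) (by ring) (sh_par h)]
  ring

theorem theta_r {ψ : QX} (h : ψ ∈ dm0) (W : QX) : HH ψ (Mh (rhX W)) = HH ψ (Mh W) := by
  have : ((HH ψ).comp Mh).comp rhX.toLinearMap = (HH ψ).comp Mh := by
    apply linear_ext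
    intro w
    change HH ψ (Mh (rhX (word w))) = HH ψ (Mh (word w))
    rw [theta h, theta_word h, Ef_fun,
      Cf_hom rhX 0 (-1) (-1) 0 (by rw [rhX_X0]; simp) (by rw [rhX_X1]; simp),
      Cf_hom rhX 0 (-1) (-1) 0 (by rw [rhX_X0]; simp) (by rw [rhX_X1]; simp),
      Cf_hom rhX 0 (-1) (-1) 0 (by rw [rhX_X0]; simp) (by rw [rhX_X1]; simp)]
    unfold Ef
    norm_num
    ring
  exact LinearMap.congr_fun this W

theorem theta_t {ψ : QX} (h : ψ ∈ dm0) (W : QX) : HH ψ (Mh (tT W)) = HH ψ (Mh W) := by
  have : ((HH ψ).comp Mh).comp tT.toLinearMap = (HH ψ).comp Mh := by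
    apply linear_ext
    intro w
    change HH ψ (Mh (tT (word w))) = HH ψ (Mh (word w))
    rw [theta h, theta_word h, Ef_fun,
      Cf_hom tT 1 1 0 (-1) (by rw [tT_X0]; simp) (by rw [tT_X1]; simp),
      Cf_hom tT 1 1 0 (-1) (by rw [tT_X0]; simp) (by rw [tT_X1]; simp),
      Cf_hom tT 1 1 0 (-1) (by rw [tT_X0]; simp) (by rw [tT_X1]; simp)]
    unfold Ef
    have e1 := Cf_par h (-1) 1 w
    have e2 := Cf_par h 0 1 w
    norm_num at e1 e2 ⊢
    rw [e1, e2]
    ring
  exact LinearMap.congr_fun this W

/-! ### The difference of two Hamiltonians -/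

/-- `H_a - H_c` -/
noncomputable def ZZ (ψ : QX) : QX →ₗ[ℚ] ℚ :=
  (HH ψ).comp rhX.toLinearMap - (HH ψ).comp tT.toLinearMap

theorem ZZ_apply (ψ W : QX) : ZZ ψ W = HH ψ (rhX W) - HH ψ (tT W) := rfl

/-- the component at `x₀` -/
noncomputable def Z0 (ψ : QX) : QX := -rhX (shiftX ψ) - ttX ψ
/-- the component at `x₁` -/
noncomputable def Z1 (ψ : QX) : QX := -rhX ψ + rhX (shiftX ψ) + ttX (shiftX ψ)

theorem ZZ_0 (ψ W : QX) : ZZ ψ (X0 * W) = lin (coeff (Z0 ψ)) W := by
  rw [ZZ_apply, map_mul rhX, map_mul tT, rhX_X0, tT_X0, neg_mul, map_neg, HH_1, add_mul, map_add,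
    HH_0, HH_1, adj_r, adj_t]
  unfold Z0
  rw [coeff_sub_fun, lin_sub_fun, coeff_neg_fun, lin_mul_fun]
  ring

theorem ZZ_1 (ψ W : QX) : ZZ ψ (X1 * W) = lin (coeff (Z1 ψ)) W := by
  rw [ZZ_apply, map_mul rhX, map_mul tT, rhX_X1, tT_X1, neg_mul, neg_mul, map_neg, map_neg, HH_0,
    HH_1, adj_r, adj_r, adj_t]
  unfold Z1
  rw [coeff_add_fun, lin_add_fun, coeff_add_fun, lin_add_fun, coeff_neg_fun, lin_mul_fun]
  ring

theorem good_Z0 {ψ : QX} (h : ψ ∈ dm0) : Good (Z0 ψ) :=
  (good_rh (good_shift (good_of_dm0 h))).neg.sub (good_tt (good_of_dm0 h))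

theorem good_Z1 {ψ : QX} (h : ψ ∈ dm0) : Good (Z1 ψ) :=
  ((good_rh (good_of_dm0 h)).neg.add (good_rh (good_shift (good_of_dm0 h)))).add
    (good_tt (good_shift (good_of_dm0 h)))

theorem ZZ_comp {ψ : QX} (h : ψ ∈ dm0) : Comp (ZZ ψ) where
  one := by rw [ZZ_apply, map_one rhX, map_one tT, sub_self]
  cyc := by
    intro b W
    rw [ZZ_apply, ZZ_apply, map_mul rhX, map_mul tT, map_mul rhX, map_mul tT, (HH_comp h).tr,
      (HH_comp h).tr (tT _) (tT W)]
  good := by
    intro b
    cases b
    · exact ⟨Z0 ψ, good_Z0 h, fun W => ZZ_0 ψ W⟩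
    · exact ⟨Z1 ψ, good_Z1 h, fun W => ZZ_1 ψ W⟩

/-- the divergence of `Z` is zero -/
theorem ZZ_dl {ψ : QX} (h : ψ ∈ dm0) (W : QX) : ZZ ψ (dl W) = 0 := by
  rw [ZZ_apply, r_dl, t_dl, (HH_comp h).dlt, (HH_comp h).dl, (HH_comp h).dl, theta_r h,
    theta_t h, sub_self]

theorem rs_st (W : QX) : rhX (sT W) = sT (tT W) := by
  have : rhX.comp sT = sT.comp tT := by
    apply FreeAlgebra.hom_ext
    funext b
    cases b
    · change rhX (sT X0) = sT (tT X0)
      rw [sT_X0, tT_X0, map_neg, rhX_X0, map_add, sT_X0, sT_X1]; abel
    · change rhX (sT X1) = sT (tT X1)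
      rw [sT_X1, tT_X1, map_add, rhX_X0, rhX_X1, map_neg, sT_X1]; abel
  exact AlgHom.congr_fun this W

theorem ts_sr (W : QX) : tT (sT W) = sT (rhX W) := by
  have : tT.comp sT = sT.comp rhX := by
    apply FreeAlgebra.hom_ext
    funext b
    cases b
    · change tT (sT X0) = sT (rhX X0)
      rw [sT_X0, rhX_X0, map_neg, tT_X0, map_neg, sT_X1]
    · change tT (sT X1) = sT (rhX X1)
      rw [sT_X1, rhX_X1, map_add, tT_X0, tT_X1, map_neg, sT_X0]; abel
  exact AlgHom.congr_fun this W

/-- `Z` is odd under the exchange of `a` and `c` -/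
theorem ZZ_s (ψ W : QX) : ZZ ψ (sT W) = - ZZ ψ W := by
  rw [ZZ_apply, ZZ_apply, rs_st, ts_sr, HH_s, HH_s]; ring

/-! ### Lowest parts -/

theorem s_low0 (w : List Bool) : ∀ f : List Bool → ℚ,
    (∀ t, t.length = w.length → t.count true ≤ w.count true → f t = 0) →
    lin f (sT (word w)) = 0 := by
  induction w with
  | nil =>
    intro f hf
    rw [word_nil, map_one, lin_one]
    exact hf [] rfl (le_refl _)
  | cons x w ih =>
    intro f hf
    rw [word_cons, map_mul]
    cases x
    · change lin f (sT X0 * sT (word w)) = 0
      rw [sT_X0, neg_mul, map_neg, lin_cons, ih, neg_zero]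
      intro t ht hc
      apply hf
      · simp [ht]
      · rw [List.count_cons_of_ne (by decide), List.count_cons_of_ne (by decide)]; exact hc
    · change lin f (sT X1 * sT (word w)) = 0
      rw [sT_X1, add_mul, map_add, lin_cons, lin_cons, ih, ih, add_zero]
      · intro t ht hc
        apply hf
        · simp [ht]
        · rw [List.count_cons_self, List.count_cons_self]; omega
      · intro t ht hc
        apply hf
        · simp [ht]
        · rw [List.count_cons_self, List.count_cons_of_ne (by decide)]; omega

theorem s_low (w : List Bool) : ∀ f : List Bool → ℚ,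
    (∀ t, t.length = w.length → t.count true < w.count true → f t = 0) →
    lin f (sT (word w)) = (-1) ^ w.count false * f w := by
  induction w with
  | nil =>
    intro f hf
    rw [word_nil, map_one, lin_one]
    simp
  | cons x w ih =>
    intro f hf
    rw [word_cons, map_mul]
    cases x
    · change lin f (sT X0 * sT (word w)) = _
      rw [sT_X0, neg_mul, map_neg, lin_cons, ih, List.count_cons_self, pow_succ]
      · ring
      · intro t ht hc
        apply hf
        · simp [ht]
        · rw [List.count_cons_of_ne (by decide), List.count_cons_of_ne (by decide)]; exact hc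
    · change lin f (sT X1 * sT (word w)) = _
      rw [sT_X1, add_mul, map_add, lin_cons, lin_cons, ih (fun t => f (true :: t)), s_low0,
        List.count_cons_of_ne (by decide)]
      · ring
      · intro t ht hc
        apply hf
        · simp [ht]
        · rw [List.count_cons_self, List.count_cons_of_ne (by decide)]; omega
      · intro t ht hc
        apply hf
        · simp [ht]
        · rw [List.count_cons_self, List.count_cons_self]; omega

theorem dl_low (w : List Bool) : ∀ f : List Bool → ℚ,
    (∀ t, t.length = w.length + 1 → t.count true = w.count true → f t = 0) →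
    lin f (dl (word w)) = - dbt f w := by
  induction w with
  | nil =>
    intro f hf
    rw [word_nil, dl, der_one, map_zero]
    simp [dbt]
  | cons x w ih =>
    intro f hf
    have e : dl (word (x :: w)) = (if x then (-1 : ℚ) else 1) • word (x :: x :: w) +
        FreeAlgebra.ι ℚ x * dl (word w) := by
      rw [word_cons x]
      conv_lhs => rw [dl, der_mul, der_iota, ← dl]
      rw [word_cons, word_cons]
      cases x
      · simp [mul_assoc]
      · simp [mul_assoc]
    rw [e, map_add, map_smul, lin_word, lin_cons, ih]
    · cases x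
      · have : f (false :: false :: w) = 0 := by
          apply hf
          · simp
          · rw [List.count_cons_of_ne (by decide)]
        rw [this]
        simp [dbt]
      · simp [dbt]; ring
    · intro t ht hc
      apply hf
      · simp [ht]
      · cases x
        · rw [List.count_cons_of_ne (by decide), List.count_cons_of_ne (by decide)]; exact hc
        · rw [List.count_cons_self, List.count_cons_self]; omega

theorem dbt_congr (w : List Bool) : ∀ f g : List Bool → ℚ,
    (∀ t, t.count false = w.count false → t.count true = w.count true + 1 → f t = g t) →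
    dbt f w = dbt g w := by
  induction w with
  | nil => intro f g _; rfl
  | cons x w ih =>
    intro f g h
    simp only [dbt]
    rw [ih (fun t => f (x :: t)) (fun t => g (x :: t))]
    · cases x
      · simp
      · rw [if_pos rfl, if_pos rfl, h]
        · rw [List.count_cons_of_ne (by decide)]
        · rw [List.count_cons_self]
    · intro t h1 h2
      apply h
      · cases x
        · rw [List.count_cons_self, List.count_cons_self]; omega
        · rw [List.count_cons_of_ne (by decide), List.count_cons_of_ne (by decide)]; exact h1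
      · cases x
        · rw [List.count_cons_of_ne (by decide), List.count_cons_of_ne (by decide)]; exact h2
        · rw [List.count_cons_self, List.count_cons_self]; omega

theorem dbt_zero (w : List Bool) : dbt (fun _ => 0) w = 0 := by
  induction w with
  | nil => rfl
  | cons x w ih => simp only [dbt]; rw [ih]; simp

theorem shuffle_perm {α : Type} (u : List α) : ∀ v : List α, ∀ t ∈ Cyc.shuffle u v,
    t.Perm (u ++ v) := by
  induction u with
  | nil =>
    intro v t ht
    rw [Cyc.shuffle] at ht
    simp only [List.mem_singleton] at ht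
    rw [ht]; exact List.Perm.refl _
  | cons a u ih =>
    intro v
    induction v with
    | nil =>
      intro t ht
      rw [Cyc.shuffle] at ht
      simp only [List.mem_singleton] at ht
      rw [ht, List.append_nil]
    | cons b v ihv =>
      intro t ht
      rw [Cyc.shuffle, List.mem_append, List.mem_map, List.mem_map] at ht
      rcases ht with ⟨s, hs, rfl⟩ | ⟨s, hs, rfl⟩
      · exact (ih (b :: v) s hs).cons a
      · have h1 := (ihv s hs).cons b
        refine h1.trans ?_
        have := (List.perm_middle (a := b) (l₁ := a :: u) (l₂ := v)).symm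
        simpa using this

theorem sum_map_zero {α : Type} (l : List α) (f : α → ℚ) (h : ∀ t ∈ l, f t = 0) :
    (l.map f).sum = 0 := by
  induction l with
  | nil => rfl
  | cons x l ih =>
    rw [List.map_cons, List.sum_cons, h x (by simp), ih (fun t ht => h t (by simp [ht])), add_zero]

/-- **`(PAR)` implies that the difference of the Hamiltonians vanishes** -/
theorem ZZ_zero (hPAR : S_PAR) {ψ : QX} (h : ψ ∈ dm0) : ∀ Q : ℕ, ∀ w : List Bool,
    w.count true = Q → ZZ ψ (word w) = 0 := by
  have hC := ZZ_comp h
  have hlin : ∀ W, ZZ ψ W = lin (fun w => ZZ ψ (word w)) W := by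
    intro W
    have : ZZ ψ = lin (fun w => ZZ ψ (word w)) := by
      apply linear_ext
      intro w
      rw [lin_word]
    exact LinearMap.congr_fun this W
  have hrot : ∀ (x : Bool) (w : List Bool), ZZ ψ (word (x :: w)) = ZZ ψ (word (w ++ [x])) := by
    intro x w
    rw [word_cons, hC.cyc, word_append]
    simp
  have happ : ∀ u v : List Bool, ZZ ψ (word (u ++ v)) = ZZ ψ (word (v ++ u)) := by
    intro u v
    rw [word_append, word_append, hC.tr]
  intro Q
  induction Q using Nat.strong_induction_on with
  | _ Q ih =>
    intro w hw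
    rcases Nat.even_or_odd (w.count false) with hP | hP
    · -- even case
      have h1 := ZZ_s ψ (word w)
      rw [hlin, s_low w _ (fun t _ hc => ih _ (by omega) t rfl), hP.neg_one_pow, one_mul] at h1
      linarith
    · -- odd case
      by_cases hQ : 2 ≤ Q
      · set P := w.count false with hPd
        set Z : List Bool → ℚ := fun t =>
          if t.count false = P ∧ t.count true = Q then ZZ ψ (word t) else 0 with hZ
        have hpar : IsPar P Q Z := by
          refine ⟨?_, ?_, ?_, ?_⟩
          · intro t ht
            simp only [hZ]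
            rw [if_neg ht]
          · intro x t
            simp only [hZ]
            have c1 : ∀ b : Bool, (x :: t).count b = (t ++ [x]).count b := by
              intro b
              rw [List.count_append, List.count_cons, List.count_cons]
              simp
            rw [c1, c1, hrot]
          · intro x u v hu hv
            by_cases hc : (x :: (u ++ v)).count false = P ∧ (x :: (u ++ v)).count true = Q
            · obtain ⟨φ, hφ, hF⟩ := hC.good x
              have h1 := (Cyc.lie_prim hφ.1).2 u v hu hv
              unfold Cyc.sh at h1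
              rw [← h1]
              congr 1
              apply List.map_congr_left
              intro t ht
              have hp := (shuffle_perm u v t ht).cons x
              simp only [hZ]
              rw [hp.count_eq, hp.count_eq, if_pos hc, word_cons, hF, lin_word]
            · apply sum_map_zero
              intro t ht
              have hp := (shuffle_perm u v t ht).cons x
              simp only [hZ]
              rw [hp.count_eq, hp.count_eq, if_neg hc]
          · intro t
            by_cases hc : t.count false = P ∧ t.count true + 1 = Q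
            · have h1 := ZZ_dl h (word t)
              rw [hlin, dl_low t _ (fun s _ hs => ih _ (by omega) s rfl)] at h1
              have h2 : dbt Z t = dbt (fun w => ZZ ψ (word w)) t := by
                apply dbt_congr
                intro s h3 h4
                simp only [hZ]
                rw [if_pos ⟨by rw [h3]; exact hc.1, by rw [h4]; exact hc.2⟩]
              rw [h2]; linarith
            · rw [← dbt_zero t]
              apply dbt_congr
              intro s h3 h4
              simp only [hZ]
              rw [if_neg]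
              rintro ⟨h5, h6⟩
              exact hc ⟨by rw [← h3]; exact h5, by rw [← h4]; exact h6⟩
        have h1 := hPAR P Q hP hQ Z hpar w
        simp only [hZ] at h1
        rw [if_pos ⟨hPd.symm, hw⟩] at h1
        exact h1
      · have hQ' : Q = 0 ∨ Q = 1 := by omega
        rcases hQ' with hQ0 | hQ1
        · -- no letter true
          have e : w = zs w.length := by
            rw [List.eq_replicate_iff]
            refine ⟨rfl, fun b hb => ?_⟩
            cases b with
            | false => rfl
            | true =>
              have : 0 < w.count true := List.count_pos_iff.mpr hb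
              omega
          rcases hn : w.length with _ | n
          · rw [hn] at e
            rw [e]
            exact hC.one
          · rw [hn] at e
            rw [e, zs_succ]
            rw [ZZ_0, lin_word, lie_zs (good_Z0 h).1 (good_Z0 h).2.1]
        · have hm : true ∈ w := by
            apply List.count_pos_iff.mp
            omega
          obtain ⟨u, v, rfl⟩ := List.append_of_mem hm
          have e : v ++ u = zs (v ++ u).length := by
            rw [List.eq_replicate_iff]
            refine ⟨rfl, fun b hb => ?_⟩
            cases b with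
            | false => rfl
            | true =>
              have h1 : 0 < (v ++ u).count true := List.count_pos_iff.mpr hb
              have h2 : (u ++ true :: v).count true = (v ++ u).count true + 1 := by
                rw [List.count_append, List.count_append, List.count_cons_self]; omega
              omega
          rw [happ, List.cons_append, e, word_cons]
          change ZZ ψ (X1 * word (zs _)) = 0
          rw [ZZ_1, lin_word, lie_zs (good_Z1 h).1 (good_Z1 h).2.1]

theorem tt_rh_shift (u : QX) : ttX (rhX (shiftX u)) = rhX u := by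
  have : (ttX.comp rhX).comp shiftX = rhX := by
    apply FreeAlgebra.hom_ext
    funext b
    cases b
    · change ttX (rhX (shiftX X0)) = rhX X0
      rw [shiftX_X0, map_sub, rhX_X0, rhX_X1, map_sub, map_neg, map_neg, ttX_X0, ttX_X1]; abel
    · change ttX (rhX (shiftX X1)) = rhX X1
      rw [shiftX_X1, rhX_X1, map_neg, ttX_X0]
  exact AlgHom.congr_fun this u

/-- **`(PAR)` implies duality for the double shuffle Lie algebra** -/
theorem dual_of_PAR (hPAR : S_PAR) {ψ : QX} (h : ψ ∈ dm0) : dual ψ = ψ := by
  have h0 : Z0 ψ = 0 := by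
    apply ext_coeff
    intro w
    rw [coeff_zero, ← lin_word (coeff (Z0 ψ)), ← ZZ_0]
    exact ZZ_zero hPAR h _ (false :: w) rfl
  have h1 := congrArg ttX h0
  unfold Z0 at h1
  rw [map_sub, map_neg, tt_rh_shift, ttX_ttX, map_zero] at h1
  rw [dual_lie h.1]
  exact (sub_eq_zero.mp h1)

/-- **`(PAR)` implies the hexagon for the double shuffle Lie algebra** -/
theorem hexagon_of_PAR (hPAR : S_PAR) {ψ : QX} (h : ψ ∈ dm0) :
    ψ + shiftX (rhX ψ) + ttX (rhX ψ) = 0 ∧ shiftX ψ + ttX ψ = ψ :=
  ⟨((hexagon_tfae h).out 0 2).mp (dual_of_PAR hPAR h),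
    ((hexagon_tfae h).out 0 3).mp (dual_of_PAR hPAR h)⟩

end Pool.Agent.MP_a57f33_nt.PV
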