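import Pool.Agent.Lib.MP_a57f33_nt.PN.V.Mould

/-!
# Parity project (MP_a57f33_nt): the open chain statement (PAR_lin) implies (PAR)

(helper73, note 2205; helper61, note 2192.)  `f (x_0, .., x_n)`, translation invariant, killed by
the proper shuffles of the `n` edges and by the insertions of a point in all `n + 1` gaps
(both ends included): if `f` is homogeneous of even degree then `f = 0`.
-/

set_option autoImplicit false

namespace Pool.Agent.MP_a57f33_nt.PV

open Pool.Agent.MP_a57f33_nt
open Pool.Agent.MP_a57f33_nt.Cyc (shuffle)
open Pent (PolyL)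

/-- open chains of `n + 1` points: alternal in the `n` edges, one letter shuffle relation in the
points -/
structure IsLin (n D : ℕ) (f : List ℚ → ℚ) : Prop where
  /-- polynomial -/
  poly : PolyL (n + 1) f
  /-- homogeneous of degree `D` -/
  hom : ∀ (c : ℚ) (z : List ℚ), c ≠ 0 → z.length = n + 1 → f (z.map (c * ·)) = c ^ D * f z
  /-- translation invariant -/
  trans : ∀ (c : ℚ) (z : List ℚ), z.length = n + 1 → f (z.map (· + c)) = f z
  /-- insertions of a point in all gaps -/
  ins : ∀ (t : ℚ) (z : List ℚ), z.length = n → f (t :: z) + insS t f z = 0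
  /-- shuffles of two strings of edges -/
  alt : ∀ (x : ℚ) (α β : List ℚ), α ≠ [] → β ≠ [] → α.length + β.length = n →
    ((shuffle α β).map fun e => f (path x e)).sum = 0

/-- **(PAR_lin)** -/
def S_PLIN : Prop := ∀ (n D : ℕ) (f : List ℚ → ℚ), 2 ≤ n → Even D → IsLin n D f →
  ∀ z : List ℚ, z.length = n + 1 → f z = 0

/-- the last point minus the first point -/
def lmf (z : List ℚ) : ℚ := z.getLastD 0 - z.headD 0

theorem lmf_path (e : List ℚ) : ∀ x : ℚ, lmf (path x e) = e.sum := by
  induction e with
  | nil => intro x; simp [lmf, path]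
  | cons a e ih =>
    intro x
    have h := ih (x + a)
    cases e with
    | nil => simp [lmf, path]
    | cons b e =>
      simp only [lmf, path, List.headD_cons, List.sum_cons, List.getLastD_cons] at h ⊢
      linarith

/-- the insertions at the interior gaps and at the last gap -/
theorem insS_last (t : ℚ) (v : List ℚ) : ∀ (F G : List ℚ → ℚ) (a b : ℚ), v ≠ [] →
    (∀ p q : List ℚ, p ≠ [] → q ≠ [] → p ++ q = v → G (p ++ t :: q) = a * F (p ++ t :: q)) →
    G (v ++ [t]) = b * F (v ++ [t]) →
    insS t G v = a * insS t F v + (b - a) * F (v ++ [t]) := by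
  induction v with
  | nil => intro F G a b h; exact absurd rfl h
  | cons x r ih =>
    intro F G a b _ h1 h2
    cases r with
    | nil =>
      simp only [insS, add_zero, List.cons_append, List.nil_append] at h2 ⊢
      rw [h2]; ring
    | cons y r =>
      rw [show insS t G (x :: y :: r) = G (x :: t :: y :: r)
          + insS t (fun w => G (x :: w)) (y :: r) from rfl,
        show insS t F (x :: y :: r) = F (x :: t :: y :: r)
          + insS t (fun w => F (x :: w)) (y :: r) from rfl]
      have e1 := h1 [x] (y :: r) (by simp) (by simp) rfl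
      rw [List.cons_append, List.nil_append] at e1
      rw [e1]
      have e2 := ih (fun w => F (x :: w)) (fun w => G (x :: w)) a b (by simp) ?_ ?_
      · rw [e2]
        simp only [List.cons_append]
        ring
      · intro p q hp hq hpq
        exact h1 (x :: p) q (by simp) hq (by rw [List.cons_append, hpq])
      · exact h2

theorem PolyL.one_var {m : ℕ} {f : List ℚ → ℚ} (hf : PolyL (m + 1) f) (r : List ℚ)
    (hr : r.length = m) : ∃ q : Polynomial ℚ, ∀ s : ℚ, f (r ++ [s]) = q.eval s := by
  obtain ⟨F, hF⟩ := hf
  set g : ℕ → Polynomial ℚ := fun i => if i = m then Polynomial.X else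
    Polynomial.C (r.getD i 0) with hg
  refine ⟨MvPolynomial.aeval g F, ?_⟩
  intro s
  have key : ∀ F : MvPolynomial ℕ ℚ, (MvPolynomial.aeval g F).eval s =
      MvPolynomial.eval (fun i => (g i).eval s) F := by
    intro F
    induction F using MvPolynomial.induction_on with
    | C a => simp
    | add p q hp hq => simp [hp, hq]
    | mul_X p i hp => simp [hp]
  rw [hF _ (by simp [hr]), key]
  congr 2
  funext i
  simp only [hg]
  by_cases hi : i = m
  · subst hi
    rw [if_pos rfl, Polynomial.eval_X, List.getD_append_right _ _ _ _ (by omega), hr]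
    simp
  · rw [if_neg hi, Polynomial.eval_C]
    by_cases hi2 : i < m
    · rw [List.getD_append _ _ _ _ (by omega)]
    · rw [List.getD_eq_default _ _ (by simp [hr]; omega), List.getD_eq_default _ _ (by omega)]

theorem lmf_map_mul (c : ℚ) (z : List ℚ) : lmf (z.map (c * ·)) = c * lmf z := by
  unfold lmf
  cases z with
  | nil => simp
  | cons x z =>
    have : ∀ (z : List ℚ) (x : ℚ), (List.map (c * ·) (x :: z)).getLastD 0
        = c * (x :: z).getLastD 0 := by
      intro z
      induction z with
      | nil => intro x; simp
      | cons y z ih =>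
        intro x
        have := ih y
        simpa [List.getLastD_cons] using this
    rw [this]
    simp
    ring

theorem lmf_map_add (c : ℚ) (z : List ℚ) (hz : z ≠ []) : lmf (z.map (· + c)) = lmf z := by
  unfold lmf
  cases z with
  | nil => exact absurd rfl hz
  | cons x z =>
    have : ∀ (z : List ℚ) (x : ℚ), (List.map (· + c) (x :: z)).getLastD 0
        = (x :: z).getLastD 0 + c := by
      intro z
      induction z with
      | nil => intro x; simp
      | cons y z ih =>
        intro x
        have := ih y
        simpa [List.getLastD_cons] using this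
    rw [this]
    simp

theorem sum_of_mem_shuffle (α β e : List ℚ) (he : e ∈ shuffle α β) :
    e.sum = α.sum + β.sum := by
  rw [(shuffle_perm α β e he).sum_eq, List.sum_append]

theorem getLastD_append_cons (p q : List ℚ) (t : ℚ) (hq : q ≠ []) :
    (p ++ t :: q).getLastD 0 = (p ++ q).getLastD 0 := by
  have e1 : (p ++ t :: q).getLastD 0 = q.getLastD 0 := by
    rw [List.getLastD_eq_getLast?, List.getLastD_eq_getLast?, List.getLast?_append]
    rw [List.getLast?_cons_of_ne_nil hq]
    cases h : q.getLast? with
    | none => exact absurd (List.getLast?_eq_none_iff.1 h) hq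
    | some a => rfl
  have e2 : (p ++ q).getLastD 0 = q.getLastD 0 := by
    rw [List.getLastD_eq_getLast?, List.getLastD_eq_getLast?, List.getLast?_append]
    cases h : q.getLast? with
    | none => exact absurd (List.getLast?_eq_none_iff.1 h) hq
    | some a => rfl
  rw [e1, e2]

theorem headD_append (p q : List ℚ) (hp : p ≠ []) : (p ++ q).headD 0 = p.headD 0 := by
  cases p with
  | nil => exact absurd rfl hp
  | cons a p => rfl

theorem getLastD_snoc (p : List ℚ) (t : ℚ) : (p ++ [t]).getLastD 0 = t := by
  rw [List.getLastD_eq_getLast?, List.getLast?_append]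
  rfl

/-- **(PAR_lin) implies the polygon form of (PAR).** -/
theorem S_MOULD_of_PLIN (h : S_PLIN) : S_MOULD := by
  intro k P F hk hP hF z hz
  obtain ⟨n, rfl⟩ : ∃ n, k = n + 1 := ⟨k - 1, by omega⟩
  have hG : IsLin n (P + 1) (fun z => lmf z * F z) := by
    refine ⟨?_, ?_, ?_, ?_, ?_⟩
    · obtain ⟨p, hp⟩ := hF.poly
      refine ⟨(MvPolynomial.X n - MvPolynomial.X 0) * p, ?_⟩
      intro l hl
      rw [map_mul, map_sub, MvPolynomial.eval_X, MvPolynomial.eval_X, ← hp l hl]
      have hne : l ≠ [] := by rintro rfl; simp at hl
      obtain ⟨r, s, rfl⟩ := List.eq_nil_or_concat' l |>.resolve_left hne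
      have hr : r.length = n := by simpa using hl
      change ((r ++ [s]).getLastD 0 - (r ++ [s]).headD 0) * F (r ++ [s]) = _
      rw [getLastD_snoc, List.getD_append_right _ _ _ _ (by omega), hr]
      have hr0 : r ≠ [] := by rintro rfl; simp at hr; omega
      obtain ⟨a, r, rfl⟩ := List.exists_cons_of_ne_nil hr0
      simp
    · intro c z hc hz
      rw [lmf_map_mul, hF.hom c z hc hz]
      ring
    · intro c z hz
      rw [lmf_map_add c z (by rintro rfl; simp at hz), hF.trans c z hz]
    · intro t z hz
      have hz0 : z ≠ [] := by rintro rfl; simp at hz; omega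
      rw [insS_last t z F (fun z => lmf z * F z) (lmf z) (lmf (z ++ [t])) hz0 _ rfl,
        hF.ins t z (by omega), hF.cyc t z (by omega)]
      · obtain ⟨a, r, rfl⟩ := List.exists_cons_of_ne_nil hz0
        have e1 : lmf (t :: a :: r) = (a :: r).getLastD 0 - t := by
          unfold lmf
          rw [List.getLastD_cons, List.getLastD_cons, List.getLastD_cons]
          rfl
        have e2 : lmf (a :: r ++ [t]) = t - a := by
          unfold lmf
          rw [getLastD_snoc]
          rfl
        have e3 : lmf (a :: r) = (a :: r).getLastD 0 - a := rfl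
        rw [e1, e2, e3]
        ring
      · intro p q hp hq hpq
        congr 1
        unfold lmf
        rw [getLastD_append_cons p q t hq, headD_append p _ hp, hpq, ← headD_append p q hp, hpq]
    · intro x α β hα hβ hl
      have e1 : ((shuffle α β).map fun e => lmf (path x e) * F (path x e)) =
          (shuffle α β).map fun e => (α.sum + β.sum) * F (path x e) := by
        apply List.map_congr_left
        intro e he
        rw [lmf_path, sum_of_mem_shuffle α β e he]
      rw [e1, List.sum_map_mul_left, hF.alt x α β hα hβ (by omega), mul_zero]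
  have hev : Even (P + 1) := hP.add_one
  have h0 := h n (P + 1) _ (by omega) hev hG
  have hne : z ≠ [] := by rintro rfl; simp at hz
  obtain ⟨r, s, rfl⟩ := List.eq_nil_or_concat' z |>.resolve_left hne
  have hr : r.length = n := by simpa using hz
  obtain ⟨q, hq⟩ := PolyL.one_var hF.poly r hr
  have hq0 : (Polynomial.X - Polynomial.C (r.headD 0)) * q = 0 := by
    apply Polynomial.funext
    intro s
    have h1 : lmf (r ++ [s]) * F (r ++ [s]) = 0 := h0 (r ++ [s]) (by simp [hr])
    have e1 : lmf (r ++ [s]) = s - r.headD 0 := by
      unfold lmf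
      rw [getLastD_snoc, headD_append r _ (by rintro rfl; simp at hr; omega)]
    rw [Polynomial.eval_mul, Polynomial.eval_sub, Polynomial.eval_X, Polynomial.eval_C,
      ← hq, ← e1, h1, Polynomial.eval_zero]
  rw [mul_eq_zero] at hq0
  have hq1 : q = 0 := hq0.resolve_left (Polynomial.X_sub_C_ne_zero _)
  rw [hq, hq1, Polynomial.eval_zero]

/-- **(PAR_lin) implies (PAR).** -/
theorem S_PAR_of_PLIN (h : S_PLIN) : S_PAR := S_PAR_of_MOULD (S_MOULD_of_PLIN h)

end Pool.Agent.MP_a57f33_nt.PV
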